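import Pool.Agent.MP_b5e119_nt.G60.Defs

/-! Statements of the rows of campaign h94e: a positive proportion of sign patterns modulo a prime. -/

namespace Pool.Agent.G94

open Finset Filter Topology Pool.Agent.G60

noncomputable section

variable [Sg]

/-- Primes of the dyadic range `(2 ^ i, 2 ^ (i + 1)]`. -/
def PD (i : ℕ) : Finset ℕ := {q ∈ Ioc (2 ^ i) (2 ^ (i + 1)) | q.Prime}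

def Rough (z d : ℕ) : Prop := ∀ q : ℕ, q.Prime → q ∣ d → z ≤ q

open Classical in
def RR (z j : ℕ) : Finset ℕ := {d ∈ Ioc (2 ^ j) (2 ^ (j + 1)) | Rough z d}

def ww (s : ℕ → ℝ) (R d : ℕ) : ℝ := (∑ e ∈ Icc 1 R with e ∣ d, s e) ^ 2

def sg (R : ℕ) : ℝ := ∑ l ∈ Icc 1 R with Squarefree l, 1 / (l.totient : ℝ)

/-- Selberg's weights. -/
def sl (R e : ℕ) : ℝ := (ArithmeticFunction.moebius e : ℝ) * e *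
  (∑ l ∈ Icc 1 R with (Squarefree l ∧ e ∣ l), 1 / (l.totient : ℝ)) / sg R

def SQ (s : ℕ → ℝ) (R q : ℕ) : ℝ :=
  ∑ e ∈ Icc 1 R, ∑ e' ∈ Icc 1 R, s e * s e' / (Nat.lcm (Nat.lcm e e') q : ℝ)

/-! ### Part A: inputs -/

def DYP_s : Prop := ∃ i₀ : ℕ, ∀ i, i₀ ≤ i → 2 ^ i ≤ 2 * (i + 1) * #(PD i)

open Classical in
/-- The interface of the climb. -/
def FEWP_s : Prop := ∀ e : ℝ, 0 < e → ∃ (δ : ℝ) (p₀ : ℕ), 0 < δ ∧ ∀ (p : ℕ) [Fact p.Prime],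
  p₀ ≤ p → (od p : ℝ) ≤ δ * p →
    ∃ U : Finset (Ch p), (#U : ℝ) ≤ (p : ℝ) ^ (1 / 50 : ℝ) ∧ ∑ χ ∈ Uᶜ, mu p χ ≤ e

/-! ### Part B: the end game -/

open Classical in
def RG_s : Prop := ∀ z k u : ℕ, 2 ≤ z → 0 < u → u < z ^ k → #{d ∈ u.divisors | Rough z d} ≤ 2 ^ k

open Classical in
def TYP_s : Prop := ∃ p₀ : ℕ, ∀ (p : ℕ) [Fact p.Prime], p₀ ≤ p → ∀ (z k : ℕ) (U : Finset (Ch p)),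
  2 ≤ z → p ≤ z ^ k → z ^ 5 ≤ p → (#U : ℝ) ≤ (p : ℝ) ^ (1 / 50 : ℝ) →
    ∃ j : ℕ, 2 * Nat.log 2 p ≤ 5 * j ∧ 20 * (j + 1) ≤ 9 * Nat.log 2 p ∧ ∃ d₀ ∈ RR z j,
      ∑ χ ∈ U, mu p χ * ∑ d ∈ RR z j,
        ‖(lam d : ℂ) * χ (d : ZMod p) - (lam d₀ : ℂ) * χ (d₀ : ZMod p)‖ ^ 2 ≤
          1600 * 2 ^ k * (∑ χ ∈ Uᶜ, mu p χ) * 2 ^ j / Nat.log 2 p

def SELA_s : Prop := ∀ R : ℕ, 1 ≤ R → sl R 1 = 1 ∧ ∀ e, |sl R e| ≤ 1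

def SELB_s : Prop := ∀ R q : ℕ, 1 ≤ R → q.Prime →
  SQ (sl R) R q ≤ (∑ l ∈ Icc 1 R with R < q * l, 1 / (l.totient : ℝ)) / (q * sg R ^ 2)

def SELC_s : Prop := (∀ R : ℕ, Real.log R ≤ sg R) ∧ ∃ C : ℝ, 0 < C ∧ ∀ R q : ℕ, 1 ≤ q →
  ∑ l ∈ Icc 1 R with R < q * l, 1 / (l.totient : ℝ) ≤ C * (1 + Real.log q)

def MERT_s : Prop := ∃ C : ℝ, 0 < C ∧ ∀ z : ℕ, 2 ≤ z →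
  ∑ q ∈ range z with q.Prime, (1 + Real.log q) / q ≤ C * Real.log z

open Classical in
def NRM_s : Prop := ∀ (s : ℕ → ℝ) (R z j : ℕ), (∀ e, |s e| ≤ 1) →
  ∑ d ∈ Ioc (2 ^ j) (2 ^ (j + 1)) with ¬Rough z d, ww s R d ≤
    ∑ q ∈ range z with q.Prime, (2 ^ j * SQ s R q + (R : ℝ) ^ 2)

def WS_s : Prop := ∀ (p : ℕ) (ψ : Ch p) (s : ℕ → ℝ) (R j : ℕ) (B : ℝ), (∀ e, |s e| ≤ 1) → 0 ≤ B →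
  (∀ N : ℕ, 2 ^ j / R ^ 2 ≤ N → N ≤ 2 ^ (j + 1) → ‖∑ n ∈ Icc 1 N, ψ (n : ZMod p)‖ ≤ B) →
    ‖∑ d ∈ Ioc (2 ^ j) (2 ^ (j + 1)), (ww s R d : ℂ) * ψ (d : ZMod p)‖ ≤ 2 * (R : ℝ) ^ 2 * B

open Classical in
def KEY1_s : Prop := ∀ (p : ℕ) (ψ : Ch p) (c : ℂ) (s : ℕ → ℝ) (R z j k : ℕ) (Y : ℝ),
  ‖c‖ = 1 → s 1 = 1 → (∀ e, |s e| ≤ 1) → 1 ≤ R → R ≤ 2 ^ j → 2 ≤ z → 2 ^ (j + 1) < z ^ k →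
  Y ≤ #(PD j) → ∑ d ∈ Ioc (2 ^ j) (2 ^ (j + 1)) with ¬Rough z d, ww s R d ≤ Y / 8 →
  ‖∑ d ∈ Ioc (2 ^ j) (2 ^ (j + 1)), (ww s R d : ℂ) * ψ (d : ZMod p)‖ ≤ Y / 8 →
    Y ≤ 4 ^ (k + 1) * ∑ d ∈ RR z j, ‖ψ (d : ZMod p) - c‖ ^ 2

def MOMC_s : Prop := ∀ (p : ℕ) [Fact p.Prime] (ψ : Ch p) (B : ℕ), ψ ≠ 1 → B < p →
  ∑ x ∈ range p, ‖∑ b ∈ Icc 1 B, ψ ((x + b : ℕ) : ZMod p)‖ ^ 4 ≤ 3 * p * B ^ 2 + 4 * B ^ 4 * √p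

open Classical in
def BUR1C_s : Prop := ∀ (p : ℕ) [Fact p.Prime] (ψ : Ch p) (N A B : ℕ) (τ W : ℝ), 0 < A → 0 < B →
  N * A < p → A < p → 0 < τ →
  (#{x ∈ range p | τ * B ≤ ‖∑ b ∈ Icc 1 B, ψ ((x + b : ℕ) : ZMod p)‖} : ℝ) ≤ W →
    ‖∑ n ∈ Icc 1 N, ψ (n : ZMod p)‖ ≤
      τ * N + √(W * (N * A * (1 + Real.log A) ^ 2)) / A + 2 * A * B

def BURC_s : Prop := ∃ κ : ℝ, 0 < κ ∧ κ ≤ 1 / 100 ∧ ∃ p₀ : ℕ, ∀ (p : ℕ) [Fact p.Prime], p₀ ≤ p →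
  ∀ (ψ : Ch p) (N : ℕ), ψ ≠ 1 → (p : ℝ) ^ (0.39 : ℝ) ≤ N → (N : ℝ) ≤ √p →
    ‖∑ n ∈ Icc 1 N, ψ (n : ZMod p)‖ ≤ N * (p : ℝ) ^ (-κ)

def KEY_s : Prop := ∃ k p₀ : ℕ, ∀ (p : ℕ) [Fact p.Prime], p₀ ≤ p → ∃ z : ℕ, 2 ≤ z ∧ p ≤ z ^ k ∧
  z ^ 5 ≤ p ∧ ∀ j : ℕ, 2 * Nat.log 2 p ≤ 5 * j → 20 * (j + 1) ≤ 9 * Nat.log 2 p →
    ∀ (ψ : Ch p) (c : ℂ), ψ ≠ 1 → ‖c‖ = 1 →
      (2 : ℝ) ^ j / Nat.log 2 p ≤ 4 ^ (k + 1) * ∑ d ∈ RR z j, ‖ψ (d : ZMod p) - c‖ ^ 2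

open Classical in
def ENDG_s : Prop := ∃ (K : ℝ) (p₀ : ℕ), 0 < K ∧ ∀ (p : ℕ) [Fact p.Prime], p₀ ≤ p →
  ∀ U : Finset (Ch p), (#U : ℝ) ≤ (p : ℝ) ^ (1 / 50 : ℝ) →
    ∑ χ : Ch p with χ ^ 2 ≠ 1, mu p χ ≤ K * ∑ χ ∈ Uᶜ, mu p χ

/-! ### Part C: assembly -/

def CONP_s : Prop := ∀ η : ℝ, 0 < η → ∃ (δ : ℝ) (p₀ : ℕ), 0 < δ ∧ ∀ (p : ℕ) [Fact p.Prime],
  p₀ ≤ p → (od p : ℝ) ≤ δ * p → ∀ χ₀ : Ch p, (∀ χ : Ch p, χ ^ 2 = 1 → χ ≠ 1 → χ = χ₀) →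
    1 - mu p χ₀ ≤ η

def STRP_s : Prop := ∀ η : ℝ, 0 < η → ∃ (δ : ℝ) (p₀ : ℕ), 0 < δ ∧ ∀ (p : ℕ) [Fact p.Prime],
  p₀ ≤ p → (od p : ℝ) ≤ δ * p → ∃ σ : ℤ, (σ = 1 ∨ σ = -1) ∧ (Ex p σ : ℝ) ≤ η * p ∧
    leg p (p - 1) = Sg.s

def ODP_s : Prop := ∀ δ : ℝ, 0 < δ → ∃ (c : ℝ) (p₀ : ℕ), 0 < c ∧ ∀ (p : ℕ) [Fact p.Prime],
  p₀ ≤ p → ∀ e : ℤ, (e = 1 ∨ e = -1) → (cnt p e (-Sg.s * e) : ℝ) ≤ c * p → (od p : ℝ) ≤ δ * p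

def TOPP_s : Prop := ∃ (c : ℝ) (p₀ : ℕ), 0 < c ∧ ∀ (p : ℕ) [Fact p.Prime], p₀ ≤ p →
  ∀ e e' : ℤ, (e = 1 ∨ e = -1) → (e' = 1 ∨ e' = -1) → e * e' = leg p (p - 1) →
    c * p ≤ cnt p e e'

end

end Pool.Agent.G94
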