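import Pool.Agent.MP_b5e119_nt.G94.Defs
import Pool.Agent.MP_5d10af_nt.Mg.Q2_Rem

/-! Row DYP: many primes in a dyadic range. -/

namespace Pool.Agent.G94

open Finset Filter Topology Pool.Agent.G60

theorem dyp_theta (i : ℕ) :
    Chebyshev.theta ((2 : ℝ) ^ (i + 1)) - Chebyshev.theta ((2 : ℝ) ^ i) ≤
      ((i : ℝ) + 1) * #(PD i) := by
  have e : ∀ n : ℕ, Chebyshev.theta ((2 : ℝ) ^ n) =
      ∑ q ∈ Ioc 0 (2 ^ n : ℕ) with q.Prime, Real.log (q : ℕ) := fun n => by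
    have : ((2 : ℝ) ^ n) = ((2 ^ n : ℕ) : ℝ) := by push_cast; rfl
    rw [this, Chebyshev.theta, Nat.floor_natCast]
  have hle : 2 ^ i ≤ 2 ^ (i + 1) := Nat.pow_le_pow_right (by norm_num) (by omega)
  have hs : ∑ q ∈ Ioc 0 (2 ^ (i + 1) : ℕ) with q.Prime, Real.log (q : ℕ) =
      ∑ q ∈ Ioc 0 (2 ^ i : ℕ) with q.Prime, Real.log (q : ℕ) +
        ∑ q ∈ PD i, Real.log (q : ℕ) := by
    unfold PD
    rw [sum_filter, sum_filter, sum_filter, sum_Ioc_consecutive _ (Nat.zero_le _) hle]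
  rw [e, e, hs, add_sub_cancel_left, mul_comm, ← nsmul_eq_mul]
  refine sum_le_card_nsmul _ _ _ fun q hq => ?_
  unfold PD at hq
  rw [mem_filter, mem_Ioc] at hq
  have h1 : (q : ℝ) ≤ (2 : ℝ) ^ (i + 1) := by exact_mod_cast hq.1.2
  have h0 : (0 : ℝ) < q := by exact_mod_cast hq.2.pos
  have h2 := Real.log_le_log h0 h1
  rw [Real.log_pow] at h2
  have h3 : Real.log 2 ≤ 1 := by linarith [Real.log_two_lt_d9]
  have h4 : (0 : ℝ) ≤ (i : ℝ) + 1 := by positivity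
  push_cast at h2
  nlinarith

theorem dyp_row : DYP_s := by
  obtain ⟨y, hy1, hy2⟩ := ((MP_5d10af_nt.Q2.theta_pnt 1).and
    (Real.tendsto_log_atTop.eventually_ge_atTop 6)).exists
  obtain ⟨N, hN⟩ := pow_unbounded_of_one_lt y (one_lt_two : (1 : ℝ) < 2)
  refine ⟨N, fun i hi => ?_⟩
  have h1 : y ≤ (2 : ℝ) ^ i := hN.le.trans (pow_le_pow_right₀ one_le_two hi)
  have hx : (0 : ℝ) < 2 ^ i := by positivity
  have h2 : (2 : ℝ) ^ (i + 1) = 2 * 2 ^ i := by ring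
  have a1 := (abs_le.1 (hy1 _ h1)).2
  have a2 := (abs_le.1 (hy1 ((2 : ℝ) ^ (i + 1)) (by linarith))).1
  have b : ∀ z : ℝ, 0 ≤ z → z / Real.log y ^ 1 ≤ z / 6 := fun z hz => by
    rw [pow_one]
    exact div_le_div_of_nonneg_left hz (by norm_num) hy2
  have b1 := b _ hx.le
  have b2 := b ((2 : ℝ) ^ (i + 1)) (by positivity)
  have h3 := dyp_theta i
  have h4 : (2 : ℝ) ^ i ≤ 2 * ((i : ℝ) + 1) * #(PD i) := by linarith
  exact_mod_cast h4

end Pool.Agent.G94
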