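import Pool.Agent.MP_b5e119_nt.G94.Defs

namespace Pool.Agent.G94

open Finset Filter Topology Pool.Agent.G60

theorem rg_row : RG_s := by
  classical
  intro z k
  induction k with
  | zero => intro u _ h0 h1; simp at h1; omega
  | succ k ih =>
    intro u hz h0 h1
    by_cases hq : ∃ q : ℕ, q.Prime ∧ q ∣ u ∧ z ≤ q
    · obtain ⟨q, hqp, ⟨v, rfl⟩, hzq⟩ := hq
      have hv0 : 0 < v := Nat.pos_of_mul_pos_left h0
      have hv1 : v < z ^ k := by
        have h2 : z * v ≤ q * v := Nat.mul_le_mul_right v hzq
        have h3 : z * v < z * z ^ k := by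
          calc z * v ≤ q * v := h2
            _ < z ^ (k + 1) := h1
            _ = z * z ^ k := by ring
        exact Nat.lt_of_mul_lt_mul_left h3
      have h4 := ih v hz hv0 hv1
      have hsub : {d ∈ (q * v).divisors | Rough z d} ⊆
          {d ∈ v.divisors | Rough z d} ∪ ({d ∈ v.divisors | Rough z d}).image (q * ·) := by
        intro d hd
        rw [mem_filter, Nat.mem_divisors] at hd
        obtain ⟨⟨hd1, _⟩, hd2⟩ := hd
        rw [mem_union]
        by_cases hqd : q ∣ d
        · obtain ⟨e, rfl⟩ := hqd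
          right
          refine mem_image.2 ⟨e, ?_, rfl⟩
          rw [mem_filter, Nat.mem_divisors]
          exact ⟨⟨Nat.dvd_of_mul_dvd_mul_left hqp.pos hd1, hv0.ne'⟩,
            fun r hr hre => hd2 r hr (Dvd.dvd.mul_left hre q)⟩
        · left
          rw [mem_filter, Nat.mem_divisors]
          have hc : Nat.Coprime d q := ((Nat.Prime.coprime_iff_not_dvd hqp).2 hqd).symm
          exact ⟨⟨hc.dvd_of_dvd_mul_left hd1, hv0.ne'⟩, hd2⟩
      calc #{d ∈ (q * v).divisors | Rough z d}
          ≤ #({d ∈ v.divisors | Rough z d} ∪ ({d ∈ v.divisors | Rough z d}).image (q * ·)) :=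
            card_le_card hsub
        _ ≤ #{d ∈ v.divisors | Rough z d} + #(({d ∈ v.divisors | Rough z d}).image (q * ·)) :=
            card_union_le _ _
        _ ≤ 2 ^ k + 2 ^ k := Nat.add_le_add h4 (card_image_le.trans h4)
        _ = 2 ^ (k + 1) := by ring
    · have hsub : {d ∈ u.divisors | Rough z d} ⊆ {1} := by
        intro d hd
        rw [mem_filter, Nat.mem_divisors] at hd
        obtain ⟨⟨hd1, _⟩, hd2⟩ := hd
        rw [mem_singleton]
        by_contra hne
        obtain ⟨q, hqp, hqd⟩ := Nat.exists_prime_and_dvd hne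
        exact hq ⟨q, hqp, hqd.trans hd1, hd2 q hqp hqd⟩
      calc #{d ∈ u.divisors | Rough z d} ≤ #({1} : Finset ℕ) := card_le_card hsub
        _ = 1 := card_singleton 1
        _ ≤ 2 ^ (k + 1) := Nat.one_le_two_pow

end Pool.Agent.G94
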