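import Pool.Agent.MP_b5e119_nt.G94.Defs

namespace Pool.Agent.G94

open Finset Filter Topology Pool.Agent.G60

theorem bur1c_shift (f : ℕ → ℂ) (hf : ∀ n, ‖f n‖ ≤ 1) (N h : ℕ) :
    ‖∑ n ∈ Icc 1 N, f n - ∑ n ∈ Icc 1 N, f (n + h)‖ ≤ 2 * h := by
  induction h with
  | zero => simp
  | succ h ih =>
    have e : ∑ n ∈ Icc 1 N, f (n + (h + 1)) =
        ∑ n ∈ Icc 1 N, f (n + h) + (f (N + 1 + h) - f (1 + h)) := by
      clear ih
      induction N with
      | zero => simp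
      | succ N ihN =>
        rw [sum_Icc_succ_top (by omega), sum_Icc_succ_top (by omega), ihN]
        have : N + 1 + (h + 1) = N + 1 + 1 + h := by ring
        rw [this]; ring
    rw [e, ← sub_sub]
    have a1 := norm_sub_le (∑ n ∈ Icc 1 N, f n - ∑ n ∈ Icc 1 N, f (n + h))
      (f (N + 1 + h) - f (1 + h))
    have a2 := norm_sub_le (f (N + 1 + h)) (f (1 + h))
    have a3 := hf (N + 1 + h)
    have a4 := hf (1 + h)
    push_cast
    linarith

theorem bur1c_row (hE : ENE_s) : BUR1C_s := by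
  intro p _ ψ N A B τ W hA hB hNA hAp hτ hW
  obtain ⟨Bad, hBad, hW'⟩ : ∃ Bad : Finset ℕ, (∀ x, x < p →
      τ * B ≤ ‖∑ b ∈ Icc 1 B, ψ ((x + b : ℕ) : ZMod p)‖ → x ∈ Bad) ∧ (#Bad : ℝ) ≤ W :=
    ⟨_, fun x h1 h2 => mem_filter.2 ⟨mem_range.2 h1, h2⟩, hW⟩
  clear hW
  obtain ⟨f, hf⟩ : ∃ f : ℕ → ℂ, ∀ n, f n = ψ (n : ZMod p) := ⟨_, fun _ => rfl⟩
  simp only [← hf] at hBad ⊢
  have hf1 : ∀ n, ‖f n‖ ≤ 1 := fun n => by rw [hf]; exact ψ.norm_le_one _
  obtain ⟨T, hT⟩ : ∃ T : ℕ → ℂ, ∀ x, T x = ∑ b ∈ Icc 1 B, f (x + b) := ⟨_, fun _ => rfl⟩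
  simp only [← hT] at hBad
  obtain ⟨X, hX⟩ : ∃ X : ℕ × ℕ → ℕ, ∀ z, X z = ((z.1 : ZMod p) * (z.2 : ZMod p)⁻¹).val :=
    ⟨_, fun _ => rfl⟩
  obtain ⟨P, hP⟩ : ∃ P : Finset (ℕ × ℕ), P = Icc 1 N ×ˢ Icc 1 A := ⟨_, rfl⟩
  have hne : ∀ z ∈ P, ((z.2 : ℕ) : ZMod p) ≠ 0 := by
    intro z hz h0
    rw [ZMod.natCast_eq_zero_iff] at h0
    simp only [hP, mem_product, mem_Icc] at hz
    have := Nat.le_of_dvd (by omega) h0
    omega
  have hXa : ∀ z ∈ P, ((X z : ℕ) : ZMod p) * z.2 = z.1 := by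
    intro z hz
    rw [hX, ZMod.natCast_zmod_val, mul_assoc, inv_mul_cancel₀ (hne z hz), mul_one]
  have hXp : ∀ z, X z < p := fun z => by rw [hX]; exact ZMod.val_lt _
  have hfac : ∀ z ∈ P, ∑ b ∈ Icc 1 B, f (z.1 + z.2 * b) = f z.2 * T (X z) := by
    intro z hz
    simp only [hT]
    rw [mul_sum]
    refine sum_congr rfl fun b _ => ?_
    simp only [hf]
    rw [← map_mul]
    congr 1
    push_cast
    rw [← hXa z hz]; ring
  have hTB : ∀ x, ‖T x‖ ≤ B := by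
    intro x
    rw [hT]
    refine (norm_sum_le _ _).trans ?_
    refine (sum_le_sum fun b _ => hf1 (x + b)).trans ?_
    simp
  obtain ⟨Q, hQ⟩ : ∃ Q : Finset (ℕ × ℕ), Q = {z ∈ P | X z ∈ Bad} := ⟨_, rfl⟩
  have hQ1 : (#Q : ℝ) = ∑ x ∈ Bad, (1 : ℝ) * (#{z ∈ P | X z = x} : ℝ) := by
    have : #Q = ∑ x ∈ Bad, #{z ∈ Q | X z = x} :=
      card_eq_sum_card_fiberwise fun z hz => by
        rw [hQ] at hz; exact (mem_filter.1 hz).2
    rw [this, Nat.cast_sum]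
    refine sum_congr rfl fun x hx => ?_
    rw [one_mul]
    congr 2
    ext z
    simp only [hQ, mem_filter]
    constructor
    · rintro ⟨⟨a, _⟩, c⟩; exact ⟨a, c⟩
    · rintro ⟨a, c⟩; exact ⟨⟨a, c ▸ hx⟩, c⟩
  have hQ2 : ∑ x ∈ Bad, (#{z ∈ P | X z = x} : ℝ) ^ 2 ≤ N * A * (1 + Real.log A) ^ 2 := by
    refine le_trans ?_ (hE N A hA)
    rw [← hP]
    have e1 : ∑ x ∈ Bad, #{z ∈ P | X z = x} ^ 2 =
        #(Bad.biUnion fun x => {z ∈ P | X z = x} ×ˢ {z ∈ P | X z = x}) := by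
      rw [card_biUnion]
      · refine sum_congr rfl fun x _ => ?_
        rw [card_product, sq]
      · intro x _ y _ hxy
        simp only [Function.onFun]
        rw [disjoint_left]
        intro w hw hw'
        simp only [mem_product, mem_filter] at hw hw'
        exact hxy (hw.1.2.symm.trans hw'.1.2)
    have e2 : (Bad.biUnion fun x => {z ∈ P | X z = x} ×ˢ {z ∈ P | X z = x}) ⊆
        {z ∈ P ×ˢ P | z.1.1 * z.2.2 = z.2.1 * z.1.2} := by
      intro w hw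
      simp only [mem_biUnion, mem_product, mem_filter] at hw
      obtain ⟨x, _, ⟨h1, h2⟩, h3, h4⟩ := hw
      refine mem_filter.2 ⟨mem_product.2 ⟨h1, h3⟩, ?_⟩
      have c1 : ((w.1.1 * w.2.2 : ℕ) : ZMod p) = ((w.2.1 * w.1.2 : ℕ) : ZMod p) := by
        push_cast
        rw [← hXa _ h1, ← hXa _ h3, h2, h4]; ring
      rw [ZMod.natCast_eq_natCast_iff'] at c1
      simp only [hP, mem_product, mem_Icc] at h1 h3
      have c2 : w.1.1 * w.2.2 ≤ N * A := Nat.mul_le_mul h1.1.2 h3.2.2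
      have c3 : w.2.1 * w.1.2 ≤ N * A := Nat.mul_le_mul h3.1.2 h1.2.2
      rwa [Nat.mod_eq_of_lt (by omega), Nat.mod_eq_of_lt (by omega)] at c1
    have e3 := card_le_card e2
    rw [← e1] at e3
    exact_mod_cast e3
  have hQ3 : (#Q : ℝ) ≤ √(W * (N * A * (1 + Real.log A) ^ 2)) := by
    apply Real.le_sqrt_of_sq_le
    rw [hQ1]
    refine (sum_mul_sq_le_sq_mul_sq _ _ _).trans ?_
    have : ∑ x ∈ Bad, (1 : ℝ) ^ 2 ≤ W := by
      rw [sum_const, nsmul_eq_mul, one_pow, mul_one]; exact hW'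
    have h0 : 0 ≤ W := le_trans (Nat.cast_nonneg _) hW'
    exact mul_le_mul this hQ2 (sum_nonneg fun _ _ => sq_nonneg _) h0
  have hS1 : ‖∑ z ∈ P, f z.2 * T (X z)‖ ≤ τ * B * (N * A) + B * #Q := by
    refine (norm_sum_le _ _).trans ?_
    have : ∀ z ∈ P, ‖f z.2 * T (X z)‖ ≤ τ * B + (if X z ∈ Bad then (B : ℝ) else 0) := by
      intro z _
      have b1 : ‖f z.2 * T (X z)‖ ≤ ‖T (X z)‖ := by
        rw [norm_mul]; exact mul_le_of_le_one_left (norm_nonneg _) (hf1 _)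
      have b0 : 0 ≤ τ * B := by positivity
      split_ifs with hb
      · linarith [hTB (X z)]
      · have : ¬ τ * B ≤ ‖T (X z)‖ := fun h => hb (hBad _ (hXp z) h)
        linarith [not_le.1 this]
    refine (sum_le_sum this).trans (le_of_eq ?_)
    rw [sum_add_distrib, ← sum_filter, sum_const, sum_const, nsmul_eq_mul, nsmul_eq_mul, ← hQ]
    simp only [hP, card_product, Nat.card_Icc, Nat.add_sub_cancel]
    push_cast
    ring
  obtain ⟨S, hS⟩ : ∃ S : ℂ, S = ∑ n ∈ Icc 1 N, f n := ⟨_, rfl⟩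
  rw [← hS]
  have hS2 : ‖(A : ℂ) * B * S - ∑ z ∈ P, f z.2 * T (X z)‖ ≤ A * B * (2 * A * B) := by
    have e : (A : ℂ) * B * S - ∑ z ∈ P, f z.2 * T (X z) =
        ∑ a ∈ Icc 1 A, ∑ b ∈ Icc 1 B, (S - ∑ n ∈ Icc 1 N, f (n + a * b)) := by
      rw [← sum_congr rfl hfac, hP, sum_product_right]
      simp only [sum_sub_distrib, sum_const, Nat.card_Icc, Nat.add_sub_cancel, nsmul_eq_mul]
      rw [mul_assoc]
      congr 1
      exact sum_congr rfl fun a _ => sum_comm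
    rw [e]
    refine (norm_sum_le _ _).trans ?_
    have : ∀ a ∈ Icc 1 A, ‖∑ b ∈ Icc 1 B, (S - ∑ n ∈ Icc 1 N, f (n + a * b))‖ ≤
        B * (2 * A * B) := by
      intro a ha
      refine (norm_sum_le _ _).trans ?_
      have : ∀ b ∈ Icc 1 B, ‖S - ∑ n ∈ Icc 1 N, f (n + a * b)‖ ≤ 2 * A * B := by
        intro b hb
        rw [hS]
        refine (bur1c_shift f hf1 N (a * b)).trans ?_
        have a1 : (a : ℝ) ≤ A := by exact_mod_cast (mem_Icc.1 ha).2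
        have a2 : (b : ℝ) ≤ B := by exact_mod_cast (mem_Icc.1 hb).2
        have a3 : (a : ℝ) * b ≤ A * B := by gcongr
        push_cast
        linarith
      refine (sum_le_sum this).trans (le_of_eq ?_)
      simp
    refine (sum_le_sum this).trans (le_of_eq ?_)
    simp only [sum_const, Nat.card_Icc, Nat.add_sub_cancel, nsmul_eq_mul]
    ring
  have hA' : (0 : ℝ) < A := by exact_mod_cast hA
  have hB' : (0 : ℝ) < B := by exact_mod_cast hB
  have hAB : (0 : ℝ) < A * B := by positivity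
  have key : A * B * ‖S‖ ≤ A * B * (2 * A * B) + (τ * B * (N * A) +
      B * √(W * (N * A * (1 + Real.log A) ^ 2))) := by
    have t1 : ‖(A : ℂ) * B * S‖ = A * B * ‖S‖ := by
      rw [norm_mul, norm_mul, Complex.norm_natCast, Complex.norm_natCast]
    have t2 := norm_sub_norm_le ((A : ℂ) * B * S) (∑ z ∈ P, f z.2 * T (X z))
    have t3 := mul_le_mul_of_nonneg_left hQ3 hB'.le
    linarith
  refine le_of_mul_le_mul_left (key.trans (le_of_eq ?_)) hAB
  field_simp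
  ring

end Pool.Agent.G94
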