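import Pool.Agent.MP_b5e119_nt.G94.Defs
import Pool.Agent.MP_b5e119_nt.G60.BURG

namespace Pool.Agent.G94

open Finset Filter Topology Pool.Agent.G60

lemma burc_level (s : Finset ℕ) (F : ℕ → ℝ) (t M : ℝ) (ht : 0 < t) (h : ∑ x ∈ s, F x ^ 4 ≤ M) :
    (#{x ∈ s | t ≤ F x} : ℝ) * t ^ 4 ≤ M := by
  refine le_trans ?_ h
  rw [← nsmul_eq_mul]
  exact (card_nsmul_le_sum _ (fun x => F x ^ 4) _ fun x hx =>
    pow_le_pow_left₀ ht.le (mem_filter.1 hx).2 4).trans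
    (sum_le_sum_of_subset_of_nonneg (filter_subset _ _) fun x _ _ => by positivity)

lemma burc_W (u v B W : ℝ) (hu : 0 < u) (hv : 0 < v) (hB : v ≤ B)
    (h : W * (1 / (3 * u) * B) ^ 4 ≤ 3 * v ^ 4 * B ^ 2 + 4 * B ^ 4 * v ^ 2) :
    W ≤ 567 * (u ^ 4 * v ^ 2) := by
  have hB0 : 0 < B := hv.trans_le hB
  have h1 : v ^ 2 ≤ B ^ 2 := pow_le_pow_left₀ hv.le hB 2
  have h2 : v ^ 2 * (v ^ 2 * B ^ 2) ≤ B ^ 2 * (v ^ 2 * B ^ 2) :=
    mul_le_mul_of_nonneg_right h1 (by positivity)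
  have h3 : W * (1 / (3 * u) * B) ^ 4 ≤ 567 * (u ^ 4 * v ^ 2) * (1 / (3 * u) * B) ^ 4 := by
    have e : 567 * (u ^ 4 * v ^ 2) * (1 / (3 * u) * B) ^ 4 = 7 * (B ^ 4 * v ^ 2) := by
      field_simp
      norm_num
    rw [e]
    linarith
  exact le_of_mul_le_mul_right h3 (by positivity)

theorem burc_row (hM : MOMC_s) (hBUR1 : BUR1C_s) : BURC_s := by
  classical
  obtain ⟨K, hK⟩ : ∃ K : ℝ, K = 9 * 567 * 262 ^ 2 := ⟨_, rfl⟩
  have hK24 : 24 ≤ K := by rw [hK]; norm_num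
  refine ⟨1 / 2000, by norm_num, by norm_num, ⌈K ^ 2000⌉₊ + 3, fun p _ hp ψ N hψ hN hN' => ?_⟩
  have hP : (0 : ℝ) < p := by exact_mod_cast (by omega : 0 < p)
  obtain ⟨u, hu⟩ : ∃ u : ℝ, u = (p : ℝ) ^ (1 / 2000 : ℝ) := ⟨_, rfl⟩
  have hu0 : 0 < u := by rw [hu]; exact Real.rpow_pos_of_pos hP _
  have hk : ∀ k : ℕ, u ^ k = (p : ℝ) ^ ((k : ℝ) / 2000) := by
    intro k
    rw [hu, ← Real.rpow_natCast, ← Real.rpow_mul hP.le]
    congr 1
    ring
  have hpu : (p : ℝ) = u ^ 2000 := by rw [hk]; norm_num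
  have hKu : K ≤ u := by
    have h1 : K ^ 2000 ≤ u ^ 2000 := by
      rw [← hpu]
      refine (Nat.le_ceil _).trans ?_
      exact_mod_cast (by omega : ⌈K ^ 2000⌉₊ ≤ p)
    exact le_of_pow_le_pow_left₀ (by norm_num) hu0.le h1
  have hu24 : 24 ≤ u := hK24.trans hKu
  have hu1 : 1 ≤ u := by linarith
  have hκ : (p : ℝ) ^ (-(1 / 2000 : ℝ)) = 1 / u := by
    rw [Real.rpow_neg hP.le, ← hu, one_div]
  have hN1 : u ^ 780 ≤ N := by
    rw [hk]
    refine le_trans (le_of_eq ?_) hN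
    norm_num
  have hsq : √(p : ℝ) = u ^ 1000 := by
    rw [hpu, show 2000 = 1000 * 2 by rfl, pow_mul, Real.sqrt_sq (by positivity)]
  rw [hκ]
  rw [hsq] at hN'
  obtain ⟨A, hA0, hA1, hA2⟩ := burg_ceil (u ^ 260) (one_le_pow₀ hu1)
  obtain ⟨B, hB0, hB1, hB2⟩ := burg_ceil (u ^ 500) (one_le_pow₀ hu1)
  have hAr : (0 : ℝ) < A := by exact_mod_cast hA0
  have hBr : (0 : ℝ) < B := by exact_mod_cast hB0
  have hNr : (0 : ℝ) ≤ N := Nat.cast_nonneg N
  have hA3 : (A : ℝ) ≤ u ^ 261 := hA2.trans (burg_mul u 2 260 261 hu1 (by linarith) (by norm_num))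
  have hlt : ∀ k : ℕ, k < 2000 → u ^ k < p := fun k hk => by
    rw [hpu]; exact pow_lt_pow_right₀ (by linarith) hk
  have hNA : N * A < p := by
    have h1 : (N : ℝ) * A ≤ u ^ 1000 * u ^ 261 := mul_le_mul hN' hA3 hAr.le (by positivity)
    rw [← pow_add] at h1
    exact_mod_cast h1.trans_lt (hlt _ (by norm_num))
  have hAp : A < p := by exact_mod_cast hA3.trans_lt (hlt _ (by norm_num))
  have hBp : B < p := by
    exact_mod_cast (hB2.trans (burg_mul u 2 500 501 hu1 (by linarith) (by norm_num))).trans_lt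
      (hlt _ (by norm_num))
  have hτ : 0 < 1 / (3 * u) := by positivity
  have hW := burc_level _ _ _ _ (mul_pos hτ hBr) (hM p ψ B hψ hBp)
  have e1 : 3 * (p : ℝ) * B ^ 2 + 4 * B ^ 4 * √p =
      3 * (u ^ 500) ^ 4 * B ^ 2 + 4 * B ^ 4 * (u ^ 500) ^ 2 := by
    rw [hsq, ← pow_mul, ← pow_mul, ← hpu]
  rw [e1] at hW
  have hW2 := burc_W u (u ^ 500) B _ hu0 (by positivity) hB1 hW
  refine (hBUR1 p ψ N A B _ _ hA0 hB0 hNA hAp hτ hW2).trans ?_
  have hlog : 1 + Real.log A ≤ 262 * u := by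
    have h1 := Real.log_le_log hAr hA3
    rw [Real.log_pow] at h1
    have h2 := Real.log_le_sub_one_of_pos hu0
    push_cast at h1
    linarith
  have hlog0 : 0 ≤ 1 + Real.log A := by
    have := Real.log_natCast_nonneg A
    linarith
  have h2 := burg_sqrt u (567 * (u ^ 4 * (u ^ 500) ^ 2)) N A (1 + Real.log A) hu0 hNr hAr
    (by
      have h1 : u ^ 780 * u ^ 260 ≤ (N : ℝ) * A := mul_le_mul hN1 hA1 (by positivity) hNr
      rw [← pow_add] at h1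
      have h3 := burg_mul u _ 1008 (780 + 260) hu1 hKu (by norm_num)
      have h4 := pow_le_pow_left₀ hlog0 hlog 2
      refine le_trans ?_ (h3.trans h1)
      refine (mul_le_mul_of_nonneg_left h4 (by positivity)).trans (le_of_eq ?_)
      rw [hK]
      ring)
  have h3 : 2 * (A : ℝ) * B ≤ 1 / (3 * u) * N := by
    rw [one_div_mul_eq_div, le_div_iff₀ (by positivity)]
    have h1 : (A : ℝ) * B ≤ 2 * u ^ 260 * (2 * u ^ 500) := mul_le_mul hA2 hB2 hBr.le (by positivity)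
    have h4 := burg_mul u 24 761 780 hu1 hu24 (by norm_num)
    have h5 := mul_le_mul_of_nonneg_right h1 hu0.le
    have e : 2 * u ^ 260 * (2 * u ^ 500) * u = 4 * u ^ 761 := by ring
    rw [e] at h5
    have e2 : 2 * (A : ℝ) * B * (3 * u) = 6 * (A * B * u) := by ring
    rw [e2]
    linarith
  have e3 : (N : ℝ) * (1 / u) = 3 * (1 / (3 * u) * N) := by field_simp
  rw [e3]
  linarith

end Pool.Agent.G94
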