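import Pool.Agent.MP_b5e119_nt.G94.Defs

/-! h94e rows CONP and TOPP. -/

namespace Pool.Agent.G94

open Finset Filter Topology Pool.Agent.G60

noncomputable section

theorem conp_row [Sg] (hD : DIR_s) (hM : MU_s) (hF : FEWP_s) (hE : ENDG_s) : CONP_s := by
  classical
  intro η hη
  obtain ⟨K, p₁, hK, hE⟩ := hE
  obtain ⟨δ, p₂, hδ, hF⟩ := hF (η / (2 * K)) (by positivity)
  refine ⟨min δ (η / 12), max (max p₁ p₂) 3, by positivity, fun p _ hp hod χ₀ hu => ?_⟩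
  have hp3 : 3 ≤ p := (le_max_right _ _).trans hp
  have hp3' : (3 : ℝ) ≤ p := by exact_mod_cast hp3
  obtain ⟨U, hU, hU'⟩ := hF p ((le_max_right _ _).trans ((le_max_left _ _).trans hp))
    (hod.trans (mul_le_mul_of_nonneg_right (min_le_left _ _) (by positivity)))
  have h1 := hE p ((le_max_left _ _).trans ((le_max_left _ _).trans hp)) U hU
  have h2 : K * ∑ χ ∈ Uᶜ, mu p χ ≤ η / 2 := by
    refine (mul_le_mul_of_nonneg_left hU' hK.le).trans (le_of_eq ?_)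
    field_simp
  have hmu : ∀ χ : Ch p, 0 ≤ mu p χ := fun χ => sq_nonneg _
  obtain ⟨t1, t2⟩ := hM p
  have hnd : ¬p ∣ 2 := fun h => by have := Nat.le_of_dvd two_pos h; omega
  have h3 := t2 2 hnd
  have h4 : bad p 2 + od p ≤ 3 ^ (2 - 1) * od p := hD p 2 two_pos (by omega)
  have h5 : (bad p 2 : ℝ) ≤ 2 * od p := by exact_mod_cast (by omega : bad p 2 ≤ 2 * od p)
  have h6 : mu p 1 * 4 ≤ ∑ χ : Ch p, mu p χ * ‖χ ((2 : ℕ) : ZMod p) - (lam 2 : ℂ)‖ ^ 2 := by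
    refine le_trans (le_of_eq ?_) (single_le_sum (f := fun χ : Ch p =>
      mu p χ * ‖χ ((2 : ℕ) : ZMod p) - (lam 2 : ℂ)‖ ^ 2)
      (fun χ _ => mul_nonneg (hmu χ) (sq_nonneg _)) (mem_univ 1))
    have hu2 : IsUnit ((2 : ℕ) : ZMod p) :=
      (ZMod.isUnit_iff_coprime 2 p).2 ((Nat.Prime.coprime_iff_not_dvd Fact.out).2 hnd).symm
    simp only [MulChar.one_apply hu2, lam_prime Nat.prime_two]
    norm_num
  have h7 : (od p : ℝ) ≤ η / 12 * p :=
    hod.trans (mul_le_mul_of_nonneg_right (min_le_right _ _) (by positivity))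
  have h8 : mu p 1 ≤ η / 2 := by
    have a1 := mul_le_mul_of_nonneg_left h6 (by linarith : (0 : ℝ) ≤ p - 1)
    rw [h3] at a1
    by_contra hc
    have a2 := mul_le_mul_of_nonneg_left (not_le.1 hc).le (by linarith : (0 : ℝ) ≤ p - 1)
    nlinarith
  have h9 : ∑ χ : Ch p, mu p χ ≤ mu p χ₀ + mu p 1 + ∑ χ : Ch p with χ ^ 2 ≠ 1, mu p χ := by
    rw [← sum_filter_add_sum_filter_not univ (fun χ : Ch p => χ ^ 2 ≠ 1), add_comm]
    refine add_le_add ?_ le_rfl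
    have : ({χ : Ch p | ¬χ ^ 2 ≠ 1} : Finset (Ch p)) ⊆ {χ₀, 1} := by
      intro χ hχ
      simp only [mem_filter, mem_univ, true_and, not_not] at hχ
      by_cases h : χ = 1
      · simp [h]
      · simp [hu χ hχ h]
    refine (sum_le_sum_of_subset_of_nonneg this fun χ _ _ => hmu χ).trans ?_
    by_cases h : χ₀ = 1
    · rw [h]; simp [hmu]
    · rw [sum_pair h]
  linarith

theorem topp_row (hS : ∀ i : Sg, @STRP_s i) (hO : ∀ i : Sg, @ODP_s i) : TOPP_s := by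
  have key : ∀ i : Sg, ∃ (c : ℝ) (p₀ : ℕ), 0 < c ∧ ∀ (p : ℕ) [Fact p.Prime], p₀ ≤ p →
      ∀ e : ℤ, (e = 1 ∨ e = -1) → leg p (p - 1) ≠ i.s → c * p ≤ cnt p e (-i.s * e) := by
    intro i
    obtain ⟨δ, p₁, hδ, h1⟩ := hS i 1 one_pos
    obtain ⟨c, p₂, hc, h2⟩ := hO i δ hδ
    refine ⟨c, max p₁ p₂, hc, fun p _ hp e he hne => ?_⟩
    by_contra hh
    obtain ⟨σ, -, -, h3⟩ := h1 p ((le_max_left _ _).trans hp)
      (h2 p ((le_max_right _ _).trans hp) e he (not_le.1 hh).le)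
    exact hne h3
  obtain ⟨c₁, p₁, hc₁, h1⟩ := key ⟨1, Or.inl rfl⟩
  obtain ⟨c₂, p₂, hc₂, h2⟩ := key ⟨-1, Or.inr rfl⟩
  refine ⟨min c₁ c₂, max p₁ p₂, lt_min hc₁ hc₂, fun p _ hp e e' he he' h => ?_⟩
  have a1 := h1 p ((le_max_left _ _).trans hp) e he
  have a2 := h2 p ((le_max_right _ _).trans hp) e he
  have b1 : min c₁ c₂ * p ≤ c₁ * p := mul_le_mul_of_nonneg_right (min_le_left _ _) (by positivity)
  have b2 : min c₁ c₂ * p ≤ c₂ * p := mul_le_mul_of_nonneg_right (min_le_right _ _) (by positivity)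
  rw [← h] at a1 a2
  rcases he with rfl | rfl <;> rcases he' with rfl | rfl
  · exact b2.trans (by simpa using a2 (by simp))
  · exact b1.trans (by simpa using a1 (by simp))
  · exact b1.trans (by simpa using a1 (by simp))
  · exact b2.trans (by simpa using a2 (by simp))

end

end Pool.Agent.G94
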