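import Pool.Agent.MP_b5e119_nt.G94.Defs

namespace Pool.Agent.G94

open Finset Filter Topology Pool.Agent.G60

theorem endg_norm_le {p : ℕ} (χ : Ch p) (d : ℕ) : ‖(lam d : ℂ) * χ (d : ZMod p)‖ ≤ 1 := by
  rw [norm_mul]
  have h1 : ‖(lam d : ℂ)‖ = 1 := by
    rcases lam_cases d with h | h <;> simp [h]
  rw [h1, one_mul]
  exact DirichletCharacter.norm_le_one χ _

theorem endg_sq {p : ℕ} (χ : Ch p) (d : ℕ) :
    (χ ^ 2) (d : ZMod p) = ((lam d : ℂ) * χ (d : ZMod p)) ^ 2 := by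
  rw [MulChar.pow_apply' χ two_ne_zero, mul_pow]
  rcases lam_cases d with h | h <;> simp [h]

theorem endg_diff {p : ℕ} (χ : Ch p) (d d₀ : ℕ) :
    ‖(χ ^ 2) (d : ZMod p) - (χ ^ 2) (d₀ : ZMod p)‖ ^ 2 ≤
      4 * ‖(lam d : ℂ) * χ (d : ZMod p) - (lam d₀ : ℂ) * χ (d₀ : ZMod p)‖ ^ 2 := by
  rw [endg_sq, endg_sq]
  have h1 := endg_norm_le χ d
  have h2 := endg_norm_le χ d₀
  generalize (lam d : ℂ) * χ (d : ZMod p) = a at *
  generalize (lam d₀ : ℂ) * χ (d₀ : ZMod p) = b at *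
  have e : a ^ 2 - b ^ 2 = (a + b) * (a - b) := by ring
  rw [e, norm_mul, mul_pow]
  have h3 : ‖a + b‖ ≤ 2 := (norm_add_le a b).trans (by linarith)
  have h4 : ‖a + b‖ ^ 2 ≤ 4 := by nlinarith [norm_nonneg (a + b)]
  exact mul_le_mul_of_nonneg_right h4 (sq_nonneg _)

theorem endg_mu_nonneg (p : ℕ) [NeZero p] (χ : Ch p) : 0 ≤ mu p χ := sq_nonneg _

theorem endg_row (hT : TYP_s) (hK : KEY_s) : ENDG_s := by
  classical
  obtain ⟨p₁, hT⟩ := hT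
  obtain ⟨k, p₂, hK⟩ := hK
  refine ⟨1 + 4 * 4 ^ (k + 1) * (1600 * 2 ^ k), max (max p₁ p₂) 2, by positivity, ?_⟩
  intro p hp hp₀ U hU
  have h1 : p₁ ≤ p := le_trans (le_trans (le_max_left _ _) (le_max_left _ _)) hp₀
  have h2 : p₂ ≤ p := le_trans (le_trans (le_max_right _ _) (le_max_left _ _)) hp₀
  have h3 : 2 ≤ p := le_trans (le_max_right _ _) hp₀
  obtain ⟨z, hz2, hzk, hz5, hK⟩ := hK p h2
  obtain ⟨j, hj1, hj2, d₀, hd₀, hT⟩ := hT p h1 z k U hz2 hzk hz5 hU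
  have hl : 0 < Nat.log 2 p := Nat.log_pos (by norm_num) h3
  have hlR : (0 : ℝ) < Nat.log 2 p := by exact_mod_cast hl
  have hd : d₀ ∈ Ioc (2 ^ j) (2 ^ (j + 1)) := (mem_filter.1 hd₀).1
  rw [mem_Ioc] at hd
  have hlt : d₀ < p := by
    have a1 : 2 ^ (j + 1) < 2 ^ Nat.log 2 p := Nat.pow_lt_pow_right (by norm_num) (by omega)
    have a2 : 2 ^ Nat.log 2 p ≤ p := Nat.pow_log_le_self 2 (by omega)
    omega
  have hpos : 0 < d₀ := lt_of_le_of_lt (Nat.zero_le _) hd.1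
  have hu : IsUnit (d₀ : ZMod p) := by
    rw [ZMod.isUnit_iff_coprime]
    exact ((Nat.Prime.coprime_iff_not_dvd hp.out).2 (Nat.not_dvd_of_pos_of_lt hpos hlt)).symm
  set e : ℝ := ∑ χ ∈ Uᶜ, mu p χ with he
  set Y : ℝ := (2 : ℝ) ^ j / Nat.log 2 p with hY
  have hY0 : 0 < Y := by positivity
  set S : Ch p → ℝ := fun χ => ∑ d ∈ RR z j,
    ‖(lam d : ℂ) * χ (d : ZMod p) - (lam d₀ : ℂ) * χ (d₀ : ZMod p)‖ ^ 2 with hS
  have hS0 : ∀ χ, 0 ≤ S χ := fun χ => sum_nonneg fun _ _ => sq_nonneg _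
  have key : ∀ χ : Ch p, χ ^ 2 ≠ 1 → Y ≤ 4 * 4 ^ (k + 1) * S χ := by
    intro χ hχ
    have hc : ‖(χ ^ 2) (d₀ : ZMod p)‖ = 1 := by
      obtain ⟨u, hu⟩ := hu
      rw [← hu]
      exact DirichletCharacter.unit_norm_eq_one _ u
    have a1 := hK j hj1 hj2 (χ ^ 2) _ hχ hc
    have a2 : ∑ d ∈ RR z j, ‖(χ ^ 2) (d : ZMod p) - (χ ^ 2) (d₀ : ZMod p)‖ ^ 2 ≤ 4 * S χ := by
      rw [hS, mul_sum]
      exact sum_le_sum fun d _ => endg_diff χ d d₀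
    calc Y ≤ _ := a1
      _ ≤ 4 ^ (k + 1) * (4 * S χ) := mul_le_mul_of_nonneg_left a2 (by positivity)
      _ = _ := by ring
  have hT' : ∑ χ ∈ U, mu p χ * S χ ≤ 1600 * 2 ^ k * e * Y := by
    refine le_trans hT (le_of_eq ?_)
    rw [hY]; ring
  have b1 : (∑ χ ∈ U with χ ^ 2 ≠ 1, mu p χ) * Y ≤ 4 * 4 ^ (k + 1) * (1600 * 2 ^ k) * e * Y := by
    calc (∑ χ ∈ U with χ ^ 2 ≠ 1, mu p χ) * Y
        = ∑ χ ∈ U with χ ^ 2 ≠ 1, mu p χ * Y := sum_mul _ _ _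
      _ ≤ ∑ χ ∈ U with χ ^ 2 ≠ 1, 4 * 4 ^ (k + 1) * (mu p χ * S χ) := by
          refine sum_le_sum fun χ hχ => ?_
          have := mul_le_mul_of_nonneg_left (key χ (mem_filter.1 hχ).2) (endg_mu_nonneg p χ)
          linarith
      _ ≤ ∑ χ ∈ U, 4 * 4 ^ (k + 1) * (mu p χ * S χ) := by
          refine sum_le_sum_of_subset_of_nonneg (filter_subset _ _) fun χ _ _ => ?_
          have := mul_nonneg (endg_mu_nonneg p χ) (hS0 χ)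
          positivity
      _ = 4 * 4 ^ (k + 1) * ∑ χ ∈ U, mu p χ * S χ := (mul_sum _ _ _).symm
      _ ≤ 4 * 4 ^ (k + 1) * (1600 * 2 ^ k * e * Y) :=
          mul_le_mul_of_nonneg_left hT' (by positivity)
      _ = _ := by ring
  have b2 : ∑ χ ∈ U with χ ^ 2 ≠ 1, mu p χ ≤ 4 * 4 ^ (k + 1) * (1600 * 2 ^ k) * e :=
    le_of_mul_le_mul_right b1 hY0
  have b3 : ∑ χ : Ch p with χ ^ 2 ≠ 1, mu p χ ≤ (∑ χ ∈ U with χ ^ 2 ≠ 1, mu p χ) + e := by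
    rw [he, sum_filter, sum_filter, ← sum_add_sum_compl U]
    refine add_le_add le_rfl (sum_le_sum fun χ _ => ?_)
    split_ifs
    · exact le_rfl
    · exact endg_mu_nonneg p χ
  linarith

end Pool.Agent.G94
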