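import Pool.Agent.MP_b5e119_nt.G94.Defs

namespace Pool.Agent.G94

open Finset Filter Topology Pool.Agent.G60

theorem key_nrm (C C' : ℝ) (hC : 0 < C) (hC' : 0 < C') (hB : SELB_s)
    (h1 : ∀ R : ℕ, Real.log R ≤ sg R)
    (h2 : ∀ R q : ℕ, 1 ≤ q →
      ∑ l ∈ Icc 1 R with R < q * l, 1 / (l.totient : ℝ) ≤ C * (1 + Real.log q))
    (h3 : ∀ z : ℕ, 2 ≤ z →
      ∑ q ∈ range z with q.Prime, (1 + Real.log q) / q ≤ C' * Real.log z)
    (a b j : ℕ) (ha : 1 ≤ a) (hb : 1 ≤ b) :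
    ∑ q ∈ range (2 ^ b) with q.Prime,
        (2 ^ j * SQ (sl (2 ^ a)) (2 ^ a) q + (((2 ^ a : ℕ) : ℝ)) ^ 2) ≤
      2 ^ j * (2 * C * C' * b / (a : ℝ) ^ 2) + 2 ^ b * ((2 : ℝ) ^ a) ^ 2 := by
  have hl2 : (1 / 2 : ℝ) ≤ Real.log 2 := by have := Real.log_two_gt_d9; linarith
  have hl0 : (0 : ℝ) < Real.log 2 := by linarith
  have ha0 : (0 : ℝ) < a := by exact_mod_cast ha
  have hb0 : (0 : ℝ) < b := by exact_mod_cast hb
  have hsg : a * Real.log 2 ≤ sg (2 ^ a) := by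
    have := h1 (2 ^ a)
    rwa [Nat.cast_pow, Nat.cast_ofNat, Real.log_pow] at this
  have hpos : 0 < a * Real.log 2 := mul_pos ha0 hl0
  have hterm : ∀ q ∈ {q ∈ range (2 ^ b) | q.Prime},
      2 ^ j * SQ (sl (2 ^ a)) (2 ^ a) q + (((2 ^ a : ℕ) : ℝ)) ^ 2 ≤
        2 ^ j * (C / (a * Real.log 2) ^ 2) * ((1 + Real.log q) / q) + ((2 : ℝ) ^ a) ^ 2 := by
    intro q hq
    have hqp : q.Prime := (mem_filter.1 hq).2
    have hq0 : (0 : ℝ) < q := by exact_mod_cast hqp.pos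
    have hlq : 0 ≤ Real.log q := Real.log_natCast_nonneg q
    have e1 := hB (2 ^ a) q Nat.one_le_two_pow hqp
    have e2 := h2 (2 ^ a) q hqp.one_le
    have e3 : SQ (sl (2 ^ a)) (2 ^ a) q ≤
        C * (1 + Real.log q) / (q * (a * Real.log 2) ^ 2) := by
      refine e1.trans (div_le_div₀ (by positivity) e2 (by positivity) ?_)
      exact mul_le_mul_of_nonneg_left (pow_le_pow_left₀ hpos.le hsg 2) hq0.le
    have e4 : C * (1 + Real.log q) / (q * (a * Real.log 2) ^ 2) =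
        (C / (a * Real.log 2) ^ 2) * ((1 + Real.log q) / q) := by
      field_simp
    rw [e4] at e3
    have e5 : (2 : ℝ) ^ j * SQ (sl (2 ^ a)) (2 ^ a) q ≤
        2 ^ j * ((C / (a * Real.log 2) ^ 2) * ((1 + Real.log q) / q)) :=
      mul_le_mul_of_nonneg_left e3 (by positivity)
    rw [Nat.cast_pow, Nat.cast_ofNat, mul_assoc]
    linarith
  refine (sum_le_sum hterm).trans ?_
  rw [sum_add_distrib, ← mul_sum, sum_const, nsmul_eq_mul]
  have hz : 2 ≤ 2 ^ b := by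
    calc 2 = 2 ^ 1 := rfl
      _ ≤ 2 ^ b := Nat.pow_le_pow_right (by norm_num) hb
  have e6 := h3 (2 ^ b) hz
  rw [Nat.cast_pow, Nat.cast_ofNat, Real.log_pow] at e6
  have e7 : (#{q ∈ range (2 ^ b) | q.Prime} : ℝ) ≤ 2 ^ b := by
    have : #{q ∈ range (2 ^ b) | q.Prime} ≤ 2 ^ b :=
      (card_filter_le _ _).trans (card_range _).le
    exact_mod_cast this
  refine add_le_add ?_ (mul_le_mul_of_nonneg_right e7 (by positivity))
  rw [mul_assoc]
  refine mul_le_mul_of_nonneg_left ?_ (by positivity)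
  refine (mul_le_mul_of_nonneg_left e6 (by positivity)).trans ?_
  have e8 : C / (a * Real.log 2) ^ 2 * (C' * (b * Real.log 2)) =
      C * C' * b / (a : ℝ) ^ 2 * (1 / Real.log 2) := by
    field_simp
  have e9 : 1 / Real.log 2 ≤ 2 := by
    rw [div_le_iff₀ hl0]; linarith
  rw [e8]
  calc C * C' * b / (a : ℝ) ^ 2 * (1 / Real.log 2) ≤ C * C' * b / (a : ℝ) ^ 2 * 2 :=
        mul_le_mul_of_nonneg_left e9 (by positivity)
    _ = 2 * C * C' * b / (a : ℝ) ^ 2 := by ring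

theorem key_main (D : ℝ) (l m k a c : ℕ) (hD : 0 < D) (hk : 256 * D * m ^ 2 ≤ k) (hm : 1 ≤ m)
    (ha : 1 ≤ a) (hl : l ≤ 2 * m * a) (hc : (c + 1) * k ≤ 2 * l) (hl0 : 1 ≤ l) :
    2 * D * ((c + 1 : ℕ) : ℝ) / (a : ℝ) ^ 2 ≤ 1 / (16 * l) := by
  have ha0 : (0 : ℝ) < a := by exact_mod_cast ha
  have hm0 : (0 : ℝ) < m := by exact_mod_cast hm
  have hl1 : (0 : ℝ) < l := by exact_mod_cast hl0
  have e1 : (l : ℝ) ≤ 2 * m * a := by exact_mod_cast hl
  have e2 : ((c + 1 : ℕ) : ℝ) * k ≤ 2 * l := by exact_mod_cast hc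
  have hc0 : (0 : ℝ) ≤ ((c + 1 : ℕ) : ℝ) := Nat.cast_nonneg _
  generalize ((c + 1 : ℕ) : ℝ) = t at e2 hc0
  rw [div_le_div_iff₀ (by positivity) (by positivity)]
  have e3 : t * (256 * D * m ^ 2) ≤ 2 * l := (mul_le_mul_of_nonneg_left hk hc0).trans e2
  have e4 : (l : ℝ) ^ 2 ≤ (2 * m * a) ^ 2 := pow_le_pow_left₀ hl1.le e1 2
  have e5 : t * (256 * D * m ^ 2) * l ≤ 2 * l * l := mul_le_mul_of_nonneg_right e3 hl1.le
  have e6 : (m : ℝ) ^ 2 * (2 * D * t * (16 * l)) ≤ (m : ℝ) ^ 2 * (1 * (a : ℝ) ^ 2) := by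
    nlinarith
  exact le_of_mul_le_mul_left e6 (by positivity)

theorem key_row (hD : DYP_s) (hA : SELA_s) (hB : SELB_s) (hC : SELC_s) (hM : MERT_s)
    (hN : NRM_s) (hW : WS_s) (hK : KEY1_s) (hU : BURC_s) : KEY_s := by
  obtain ⟨i₀, hD⟩ := hD
  obtain ⟨h1, C, hC0, h2⟩ := hC
  obtain ⟨C', hC0', h3⟩ := hM
  obtain ⟨κ, hκ0, hκ1, p₁, hU⟩ := hU
  obtain ⟨m, hm⟩ : ∃ m : ℕ, 4 / κ ≤ m := exists_nat_ge _
  have hmκ : 4 ≤ m * κ := by rwa [div_le_iff₀ hκ0] at hm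
  have hm4 : 400 ≤ m := by
    have h0 : (0 : ℝ) ≤ m := Nat.cast_nonneg m
    have : (400 : ℝ) ≤ m := by nlinarith
    exact_mod_cast this
  obtain ⟨k₀, hk₀⟩ : ∃ k : ℕ, 256 * (C * C') * m ^ 2 ≤ k := exists_nat_ge _
  obtain ⟨k, hk, hk10⟩ : ∃ k : ℕ, 256 * (C * C') * m ^ 2 ≤ k ∧ 10 ≤ k :=
    ⟨k₀ + 10, by push_cast; linarith, by omega⟩
  refine ⟨k, max p₁ (2 ^ (32 * m * m + k + 3 * i₀ + 100)), fun p hp hp0 => ?_⟩
  have hpp : p.Prime := hp.out
  have hp1 : p₁ ≤ p := (le_max_left _ _).trans hp0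
  have hl : 32 * m * m + k + 3 * i₀ + 100 ≤ Nat.log 2 p :=
    Nat.le_log_of_pow_le (by norm_num) ((le_max_right _ _).trans hp0)
  have hlo : 2 ^ Nat.log 2 p ≤ p := Nat.pow_log_le_self 2 hpp.ne_zero
  have hhi : p < 2 ^ (Nat.log 2 p + 1) := Nat.lt_pow_succ_log_self (by norm_num) p
  generalize Nat.log 2 p = l at hl hlo hhi
  obtain ⟨a, ha1, ha2⟩ : ∃ a : ℕ, a * m ≤ l ∧ l < (a + 1) * m :=
    ⟨l / m, Nat.div_mul_le_self l m, by
      have := Nat.lt_div_mul_add (a := l) (show 0 < m by omega)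
      rw [add_mul, one_mul]; exact this⟩
  obtain ⟨c, hc1, hc2⟩ : ∃ c : ℕ, c * k ≤ l ∧ l < (c + 1) * k :=
    ⟨l / k, Nat.div_mul_le_self l k, by
      have := Nat.lt_div_mul_add (a := l) (show 0 < k by omega)
      rw [add_mul, one_mul]; exact this⟩
  have ha3 : 400 * a ≤ l := by nlinarith
  have hc3 : 10 * c ≤ l := by nlinarith
  have ha4 : 32 * m ≤ a := by
    by_contra hcon
    have : (a + 1) * m ≤ 32 * m * m := Nat.mul_le_mul_right m (by omega)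
    omega
  have ha5 : 32 * l ≤ 2 ^ a * 2 ^ a := by
    have e1 : a + 1 ≤ 2 ^ a := Nat.lt_two_pow_self
    have e2 : 32 * m ≤ 2 ^ a := by omega
    calc 32 * l ≤ 32 * ((a + 1) * m) := by omega
      _ = (a + 1) * (32 * m) := by ring
      _ ≤ 2 ^ a * 2 ^ a := Nat.mul_le_mul e1 e2
  have h12 : 1 < 2 := by norm_num
  have hzk : 2 ^ (l + 1) ≤ (2 ^ (c + 1)) ^ k := by
    rw [← pow_mul]; exact Nat.pow_le_pow_right (by norm_num) hc2
  have hz2 : 2 ≤ 2 ^ (c + 1) := by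
    calc 2 = 2 ^ 1 := rfl
      _ ≤ 2 ^ (c + 1) := Nat.pow_le_pow_right (by norm_num) (by omega)
  refine ⟨2 ^ (c + 1), hz2, hhi.le.trans hzk, ?_, fun j hj1 hj2 ψ w hψ hw => ?_⟩
  · rw [← pow_mul]
    exact (Nat.pow_le_pow_right (by norm_num) (by omega)).trans hlo
  have hl0 : (0 : ℝ) < l := by
    have : 0 < l := by omega
    exact_mod_cast this
  have hp0' : (0 : ℝ) < p := by exact_mod_cast hpp.pos
  have ha5' : (32 : ℝ) * l ≤ 2 ^ a * 2 ^ a := by exact_mod_cast ha5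
  obtain ⟨hs1, hs2⟩ := hA (2 ^ a) Nat.one_le_two_pow
  refine hK p ψ w (sl (2 ^ a)) (2 ^ a) (2 ^ (c + 1)) j k _ hw hs1 hs2 Nat.one_le_two_pow
    (Nat.pow_le_pow_right (by norm_num) (by omega)) hz2
    (lt_of_lt_of_le (Nat.pow_lt_pow_right h12 (by omega)) hzk) ?_ ?_ ?_
  · have e1 := hD j (by omega)
    have e2 : 2 ^ j ≤ #(PD j) * l := by
      refine e1.trans ?_
      rw [mul_comm]
      exact Nat.mul_le_mul_left _ (by omega)
    rw [div_le_iff₀ hl0]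
    exact_mod_cast e2
  · refine (hN _ _ _ _ hs2).trans ?_
    refine (key_nrm C C' hC0 hC0' hB h1 h2 h3 a (c + 1) j (by omega) (by omega)).trans ?_
    have e1 := key_main (C * C') l m k a c (by positivity) hk (by omega) (by omega)
      (by nlinarith) (by rw [add_mul]; omega) (by omega)
    have e2 : 2 ^ a * 2 ^ a * (2 ^ (c + 1) * (2 ^ a) ^ 2) ≤ 2 ^ j := by
      rw [← pow_mul, ← pow_add, ← pow_add, ← pow_add]
      exact Nat.pow_le_pow_right (by norm_num) (by omega)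
    have e3 : (2 : ℝ) ^ a * 2 ^ a * (2 ^ (c + 1) * (2 ^ a) ^ 2) ≤ 2 ^ j := by exact_mod_cast e2
    have e4 : (2 : ℝ) ^ (c + 1) * (2 ^ a) ^ 2 ≤ 2 ^ j * (1 / (16 * l)) := by
      rw [mul_one_div, le_div_iff₀ (by positivity)]
      have e5 : (0 : ℝ) ≤ 2 ^ (c + 1) * (2 ^ a) ^ 2 := by positivity
      nlinarith [mul_le_mul_of_nonneg_right ha5' e5, mul_nonneg hl0.le e5]
    have e6 : (2 : ℝ) ^ j * (2 * C * C' * ((c + 1 : ℕ) : ℝ) / (a : ℝ) ^ 2) ≤
        2 ^ j * (1 / (16 * l)) := by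
      refine mul_le_mul_of_nonneg_left ?_ (by positivity)
      rw [mul_assoc 2 C C']
      exact e1
    have e7 : (2 : ℝ) ^ j / l / 8 = 2 ^ j * (1 / (16 * l)) + 2 ^ j * (1 / (16 * l)) := by
      field_simp; norm_num
    rw [e7]
    exact add_le_add e6 e4
  · have hB0 : (0 : ℝ) ≤ 2 ^ (j + 1) * (p : ℝ) ^ (-κ) := by positivity
    refine (hW p ψ _ (2 ^ a) j _ hs2 hB0 fun N hN1 hN2 => ?_).trans ?_
    · have hN2' : (N : ℝ) ≤ 2 ^ (j + 1) := by exact_mod_cast hN2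
      refine (hU p hp1 ψ N hψ ?_ ?_).trans
        (mul_le_mul_of_nonneg_right hN2' (by positivity))
      · rw [← pow_mul, Nat.pow_div (by omega) (by norm_num)] at hN1
        have e1 : (2 : ℝ) ^ (j - a * 2) ≤ N := by exact_mod_cast hN1
        have e2 : (p : ℝ) ≤ 2 ^ (l + 1) := by exact_mod_cast hhi.le
        refine le_trans ?_ e1
        refine (Real.rpow_le_rpow hp0'.le e2 (by norm_num)).trans ?_
        rw [← Real.rpow_natCast, ← Real.rpow_natCast, ← Real.rpow_mul (by norm_num)]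
        refine Real.rpow_le_rpow_of_exponent_le (by norm_num) ?_
        have e3 : 39 * (l + 1) ≤ 100 * (j - a * 2) := by omega
        have e4 : (39 : ℝ) * ((l + 1 : ℕ) : ℝ) ≤ 100 * ((j - a * 2 : ℕ) : ℝ) := by
          exact_mod_cast e3
        linarith
      · refine hN2'.trans (Real.le_sqrt_of_sq_le ?_)
        have e1 : (2 ^ (j + 1)) ^ 2 ≤ p := by
          rw [← pow_mul]
          exact (Nat.pow_le_pow_right (by norm_num) (by omega)).trans hlo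
        exact_mod_cast e1
    · have e1 : ((2 : ℝ) ^ a) ^ 4 ≤ (p : ℝ) ^ κ := by
        have e2 : (2 : ℝ) ^ l ≤ p := by exact_mod_cast hlo
        refine le_trans ?_ (Real.rpow_le_rpow (by positivity) e2 hκ0.le)
        rw [← pow_mul, ← Real.rpow_natCast, ← Real.rpow_natCast, ← Real.rpow_mul (by norm_num)]
        refine Real.rpow_le_rpow_of_exponent_le (by norm_num) ?_
        have e3 : (a : ℝ) * m ≤ l := by exact_mod_cast ha1
        have e4 : (0 : ℝ) ≤ a := Nat.cast_nonneg a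
        push_cast
        nlinarith [mul_le_mul_of_nonneg_left hmκ e4, mul_le_mul_of_nonneg_right e3 hκ0.le]
      have e5 : (0 : ℝ) < (p : ℝ) ^ κ := by positivity
      rw [Real.rpow_neg hp0'.le, Nat.cast_pow, Nat.cast_ofNat]
      have e6 : (2 : ℝ) * (2 ^ a) ^ 2 * (2 ^ (j + 1) * ((p : ℝ) ^ κ)⁻¹) =
          2 ^ j * (4 * (2 ^ a) ^ 2 / (p : ℝ) ^ κ) := by
        rw [pow_succ 2 j]; field_simp; norm_num
      have e7 : (2 : ℝ) ^ j / l / 8 = 2 ^ j * (1 / (8 * l)) := by field_simp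
      rw [e6, e7]
      refine mul_le_mul_of_nonneg_left ?_ (by positivity)
      rw [div_le_div_iff₀ e5 (by positivity)]
      have e8 : (0 : ℝ) ≤ (2 ^ a) ^ 2 := by positivity
      nlinarith [mul_le_mul_of_nonneg_right ha5' e8]

end Pool.Agent.G94
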