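import Pool.Agent.MP_b5e119_nt.G94.Defs

namespace Pool.Agent.G94

open Finset Filter Topology Pool.Agent.G60

theorem key1_prime (s : ℕ → ℝ) (R j q : ℕ) (hs : s 1 = 1) (hR : 1 ≤ R) (hRj : R ≤ 2 ^ j)
    (hq : q ∈ PD j) : ww s R q = 1 := by
  have h := mem_filter.1 hq
  have h1 := (mem_Ioc.1 h.1).1
  have he : ({e ∈ Icc 1 R | e ∣ q} : Finset ℕ) = {1} := by
    ext e
    simp only [mem_filter, mem_Icc, mem_singleton]
    constructor
    · rintro ⟨⟨_, h3⟩, h4⟩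
      rcases (Nat.dvd_prime h.2).1 h4 with h5 | h5
      · exact h5
      · omega
    · rintro rfl
      exact ⟨⟨le_rfl, hR⟩, one_dvd _⟩
  unfold ww
  rw [he, sum_singleton, hs]
  norm_num

theorem key1_rough (hRG : RG_s) (s : ℕ → ℝ) (R z k d : ℕ) (hs : ∀ e, |s e| ≤ 1) (hz : 2 ≤ z)
    (hd : 0 < d) (hdz : d < z ^ k) (hr : Rough z d) : ww s R d ≤ 4 ^ k := by
  classical
  have h1 := hRG z k d hz hd hdz
  have h2 : ({e ∈ Icc 1 R | e ∣ d} : Finset ℕ) ⊆ {e ∈ d.divisors | Rough z e} := by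
    intro e he
    have he' := mem_filter.1 he
    refine mem_filter.2 ⟨Nat.mem_divisors.2 ⟨he'.2, hd.ne'⟩, ?_⟩
    intro q hq hqe
    exact hr q hq (hqe.trans he'.2)
  have h3 : #({e ∈ Icc 1 R | e ∣ d} : Finset ℕ) ≤ 2 ^ k := (card_le_card h2).trans h1
  have h4 : |∑ e ∈ Icc 1 R with e ∣ d, s e| ≤ (2 : ℝ) ^ k := by
    refine (abs_sum_le_sum_abs _ _).trans ?_
    refine (sum_le_card_nsmul _ _ 1 fun e _ => hs e).trans ?_
    rw [nsmul_eq_mul, mul_one]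
    exact_mod_cast h3
  unfold ww
  have h5 : (4 : ℝ) ^ k = ((2 : ℝ) ^ k) ^ 2 := by
    rw [← pow_mul, mul_comm, pow_mul]
    norm_num
  rw [h5, ← sq_abs]
  exact pow_le_pow_left₀ (abs_nonneg _) h4 2

theorem key1_row (hRG : RG_s) : KEY1_s := by
  classical
  intro p ψ c s R z j k Y hc hs1 hs hR hRj hz hk hY hnr hsum
  have hw0 : ∀ d, 0 ≤ ww s R d := fun d => sq_nonneg _
  set I : Finset ℕ := Ioc (2 ^ j) (2 ^ (j + 1)) with hI
  have hW : Y ≤ ∑ d ∈ I, ww s R d := by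
    refine hY.trans ?_
    have h1 : (#(PD j) : ℝ) = ∑ q ∈ PD j, ww s R q := by
      rw [sum_congr rfl fun q hq => key1_prime s R j q hs1 hR hRj hq]
      simp
    rw [h1]
    exact sum_le_sum_of_subset_of_nonneg (filter_subset _ _) fun d _ _ => hw0 d
  have hsplit : ((∑ d ∈ I, ww s R d : ℝ) : ℂ) * c =
      ∑ d ∈ I, (ww s R d : ℂ) * ψ (d : ZMod p) -
        ∑ d ∈ I, (ww s R d : ℂ) * (ψ (d : ZMod p) - c) := by
    rw [← sum_sub_distrib, Complex.ofReal_sum, sum_mul]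
    exact sum_congr rfl fun d _ => by ring
  have hW0 : 0 ≤ ∑ d ∈ I, ww s R d := sum_nonneg fun d _ => hw0 d
  have h1 : ∑ d ∈ I, ww s R d ≤ Y / 8 + ∑ d ∈ I, ww s R d * ‖ψ (d : ZMod p) - c‖ := by
    have h2 : ‖((∑ d ∈ I, ww s R d : ℝ) : ℂ) * c‖ = ∑ d ∈ I, ww s R d := by
      rw [norm_mul, hc, mul_one, Complex.norm_real, Real.norm_of_nonneg hW0]
    rw [← h2, hsplit]
    refine (norm_sub_le _ _).trans (add_le_add hsum ?_)
    refine (norm_sum_le _ _).trans (le_of_eq (sum_congr rfl fun d _ => ?_))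
    rw [norm_mul, Complex.norm_real, Real.norm_of_nonneg (hw0 d)]
  have h2 : ∑ d ∈ I with ¬Rough z d, ww s R d * ‖ψ (d : ZMod p) - c‖ ≤ Y / 4 := by
    have h3 : ∑ d ∈ I with ¬Rough z d, ww s R d * ‖ψ (d : ZMod p) - c‖ ≤
        ∑ d ∈ I with ¬Rough z d, 2 * ww s R d := by
      refine sum_le_sum fun d _ => ?_
      have h4 : ‖ψ (d : ZMod p) - c‖ ≤ 2 := by
        have h5 := norm_sub_le (ψ (d : ZMod p)) c
        have h6 : ‖ψ (d : ZMod p)‖ ≤ 1 := DirichletCharacter.norm_le_one ψ _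
        linarith
      nlinarith [hw0 d]
    rw [← mul_sum] at h3
    linarith
  have h3 : ∑ d ∈ I with Rough z d, ww s R d * ‖ψ (d : ZMod p) - c‖ ≤
      (∑ d ∈ I, ww s R d) / 4 + 4 ^ k * ∑ d ∈ RR z j, ‖ψ (d : ZMod p) - c‖ ^ 2 := by
    have h4 : ∑ d ∈ I with Rough z d, ww s R d * ‖ψ (d : ZMod p) - c‖ ≤
        ∑ d ∈ I with Rough z d, (ww s R d / 4 + 4 ^ k * ‖ψ (d : ZMod p) - c‖ ^ 2) := by
      refine sum_le_sum fun d hd => ?_
      have hd' := mem_filter.1 hd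
      have hd2 := mem_Ioc.1 hd'.1
      have h5 := key1_rough hRG s R z k d hs hz (lt_of_le_of_lt (Nat.zero_le _) hd2.1)
        (lt_of_le_of_lt hd2.2 hk) hd'.2
      have h6 : ‖ψ (d : ZMod p) - c‖ ≤ 1 / 4 + ‖ψ (d : ZMod p) - c‖ ^ 2 := by
        nlinarith [sq_nonneg (‖ψ (d : ZMod p) - c‖ - 1 / 2)]
      have h7 := mul_le_mul_of_nonneg_left h6 (hw0 d)
      have h8 := mul_le_mul_of_nonneg_right h5 (sq_nonneg ‖ψ (d : ZMod p) - c‖)
      linarith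
    rw [sum_add_distrib, ← sum_div, ← mul_sum] at h4
    have h5 : ∑ d ∈ I with Rough z d, ww s R d ≤ ∑ d ∈ I, ww s R d :=
      sum_le_sum_of_subset_of_nonneg (filter_subset _ _) fun d _ _ => hw0 d
    have h6 : RR z j = {d ∈ I | Rough z d} := rfl
    rw [h6]
    linarith
  have h4 := sum_filter_add_sum_filter_not I (Rough z)
    (fun d => ww s R d * ‖ψ (d : ZMod p) - c‖)
  have h5 : 0 ≤ ∑ d ∈ I with ¬Rough z d, ww s R d := sum_nonneg fun d _ => hw0 d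
  rw [pow_succ, mul_comm ((4 : ℝ) ^ k) 4, mul_assoc]
  linarith

end Pool.Agent.G94
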