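import Pool.Agent.MP_b5e119_nt.G94.Defs

namespace Pool.Agent.G94

open Finset Filter Topology Pool.Agent.G60

theorem mert_nonneg {q : ℕ} : (0 : ℝ) ≤ (1 + Real.log q) / q := by
  have := Real.log_natCast_nonneg q
  positivity

theorem mert_block (hC : CHEB_s) (j : ℕ) (hj : 1 ≤ j) :
    ∑ q ∈ Ioc (2 ^ j : ℕ) (2 ^ (j + 1)) with q.Prime, (1 + Real.log (q : ℕ)) / (q : ℕ) ≤ 12 := by
  have h := hC.2.1 j hj
  have hj' : (1 : ℝ) ≤ j := by exact_mod_cast hj
  have h2 : Real.log 2 ≤ 1 := by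
    have := Real.log_two_lt_d9
    linarith
  calc _ ≤ ∑ q ∈ Ioc (2 ^ j : ℕ) (2 ^ (j + 1)) with q.Prime, 3 * (j : ℝ) * (1 / ((q : ℕ) : ℝ)) := by
        refine sum_le_sum fun q hq => ?_
        obtain ⟨h1, hp⟩ := mem_filter.1 hq
        have hq0 : (0 : ℝ) < q := by exact_mod_cast hp.pos
        have a1 : (q : ℝ) ≤ 2 ^ (j + 1) := by exact_mod_cast (mem_Ioc.1 h1).2
        have a2 : Real.log q ≤ (j + 1 : ℝ) * Real.log 2 := by
          have := Real.log_le_log hq0 a1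
          rw [Real.log_pow] at this
          exact_mod_cast this
        have a3 : (j + 1 : ℝ) * Real.log 2 ≤ (j + 1 : ℝ) * 1 := by gcongr
        rw [mul_one_div]
        gcongr
        linarith
    _ = 3 * (j : ℝ) * ∑ q ∈ Ioc (2 ^ j : ℕ) (2 ^ (j + 1)) with q.Prime, 1 / ((q : ℕ) : ℝ) :=
        (mul_sum _ _ _).symm
    _ ≤ 3 * (j : ℝ) * (4 / j) := by gcongr
    _ = 12 := by field_simp; norm_num

theorem mert_pow (hC : CHEB_s) (j : ℕ) :
    ∑ q ∈ Ioc (0 : ℕ) (2 ^ (j + 1)) with q.Prime, (1 + Real.log (q : ℕ)) / (q : ℕ) ≤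
      12 * ((j : ℝ) + 1) := by
  induction j with
  | zero =>
    have h : {q ∈ Ioc (0 : ℕ) (2 ^ (0 + 1)) | q.Prime} = {2} := by decide
    have := Real.log_two_lt_d9
    rw [h, sum_singleton]
    push_cast
    linarith
  | succ j ih =>
    have h1 : 2 ^ (j + 1) ≤ 2 ^ (j + 1 + 1) := Nat.pow_le_pow_right two_pos (by omega)
    rw [← Ioc_union_Ioc_eq_Ioc (Nat.zero_le _) h1, filter_union,
      sum_union (disjoint_filter_filter (Ioc_disjoint_Ioc_of_le le_rfl))]
    have := mert_block hC (j + 1) (by omega)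
    push_cast at this ih ⊢
    linarith

theorem mert_row (hC : CHEB_s) : MERT_s := by
  refine ⟨48, by norm_num, fun z hz => ?_⟩
  set j := Nat.log 2 z with hj
  have h1 : z < 2 ^ (j + 1) := Nat.lt_pow_succ_log_self Nat.one_lt_two z
  have h2 : 1 ≤ j := Nat.le_log_of_pow_le Nat.one_lt_two (by simpa using hz)
  have h3 : (1 : ℝ) ≤ j := by exact_mod_cast h2
  have h4 : (j : ℝ) * Real.log 2 ≤ Real.log z := by
    rw [← Real.log_pow]
    refine Real.log_le_log (by positivity) ?_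
    exact_mod_cast Nat.pow_log_le_self 2 (show z ≠ 0 by omega)
  have h5 := Real.log_two_gt_d9
  have h6 : (j : ℝ) * (1 / 2) ≤ j * Real.log 2 := by gcongr; linarith
  calc _ ≤ ∑ q ∈ Ioc (0 : ℕ) (2 ^ (j + 1)) with q.Prime, (1 + Real.log (q : ℕ)) / (q : ℕ) := by
        refine sum_le_sum_of_subset_of_nonneg (fun q hq => ?_) fun q _ _ => mert_nonneg
        obtain ⟨a1, a2⟩ := mem_filter.1 hq
        have := mem_range.1 a1
        exact mem_filter.2 ⟨mem_Ioc.2 ⟨a2.pos, by omega⟩, a2⟩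
    _ ≤ 12 * ((j : ℝ) + 1) := mert_pow hC j
    _ ≤ _ := by linarith

end Pool.Agent.G94
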