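import Pool.Agent.MP_b5e119_nt.G94.Defs
import Pool.Agent.MP_1609a8_nt.H76.Weil

namespace Pool.Agent.G94

open Finset Filter Topology Pool.Agent.G60

noncomputable def momc_cj (b : Bool) (z : ℂ) : ℂ := if b then (starRingEnd ℂ) z else z

theorem momc_conj {F : Type} [Field F] [Fintype F] (ψ : MulChar F ℂ) (h2 : 2 < Fintype.card F)
    (x : F) : (starRingEnd ℂ) (ψ x) = ψ x ^ (Fintype.card F - 2) := by
  obtain ⟨m, hm⟩ : ∃ m, Fintype.card F = m + 3 := ⟨Fintype.card F - 3, by omega⟩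
  rw [show Fintype.card F - 2 = m + 1 by omega]
  rcases eq_or_ne x 0 with rfl | hx
  · simp [MulChar.map_zero]
  · have h1 : ψ x ^ (m + 2) = 1 := by
      rw [← map_pow, show m + 2 = Fintype.card F - 1 by omega,
        FiniteField.pow_card_sub_one_eq_one x hx, map_one]
    have h3 : ‖ψ x‖ = 1 := Complex.norm_eq_one_of_pow_eq_one h1 (by omega)
    rw [← Complex.inv_eq_conj h3]
    exact (eq_inv_of_mul_eq_one_left (by rw [← pow_succ, h1])).symm

theorem momc_weil {F : Type} [Field F] [Fintype F] {ψ : MulChar F ℂ} (hψ : ψ ≠ 1) {I : Type}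
    [Fintype I] (h : I → F) (e : I → Bool) (i₀ : I) (hu : ∀ i, h i = h i₀ → i = i₀) :
    ‖∑ t : F, ∏ i, momc_cj (e i) (ψ (t + h i))‖ ≤ Fintype.card I * √(Fintype.card F) := by
  obtain ⟨u, hu1⟩ := MulChar.ne_one_iff.1 hψ
  have hne : (u : F) ≠ 1 := fun c => hu1 (by rw [c, map_one])
  have h2 : 2 < Fintype.card F :=
    Fintype.two_lt_card_iff.2 ⟨0, 1, u, zero_ne_one, u.ne_zero.symm, hne.symm⟩
  have hc (b : Bool) (x : F) : momc_cj b (ψ x) = ψ x ^ (if b then Fintype.card F - 2 else 1) := by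
    cases b <;> simp [momc_cj, momc_conj ψ h2]
  have h3 := Pool.Agent.MP_1609a8_nt.H76.weil_tame (K := F) h
    (fun i => if e i then Fintype.card F - 2 else 1) ψ.toMonoidHom i₀ u.ne_zero
    (by
      show ψ u ^ _ ≠ 1
      rw [← hc]
      cases e i₀
      · simpa [momc_cj] using hu1
      · simp only [momc_cj, if_true]
        exact fun c => hu1 (by simpa using congrArg (starRingEnd ℂ) c))
    (fun j k hk hj => by
      obtain rfl : k = 0 := by simpa using hk
      exact ⟨hu j (by simpa using hj.symm), rfl⟩)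
  rw [Module.finrank_self, Nat.cast_one, mul_one, ← Equiv.sum_comp (Equiv.neg F)] at h3
  refine le_of_eq_of_le (congrArg _ (sum_congr rfl fun t _ => prod_congr rfl fun i _ => ?_)) h3
  rw [hc]
  simp only [pow_ite, pow_one, Algebra.algebraMap_self, Equiv.neg_apply, RingHom.id_apply,
    sub_neg_eq_add, add_comm, MulChar.coe_toMonoidHom]

lemma momc_range (p : ℕ) [Fact p.Prime] (F : ZMod p → ℂ) :
    ∑ x ∈ range p, F (x : ZMod p) = ∑ u : ZMod p, F u := by
  have : NeZero p := ⟨(Fact.out : p.Prime).ne_zero⟩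
  refine sum_nbij (fun x : ℕ => (x : ZMod p)) (fun _ _ => mem_univ _) ?_ ?_ fun _ _ => rfl
  · intro a ha b hb h
    have ha' : a < p := by simpa using ha
    have hb' : b < p := by simpa using hb
    have := (ZMod.natCast_eq_natCast_iff' a b p).1 h
    rwa [Nat.mod_eq_of_lt ha', Nat.mod_eq_of_lt hb'] at this
  · intro u _
    exact ⟨u.val, by simpa using ZMod.val_lt u, ZMod.natCast_zmod_val u⟩

lemma momc_count (S : Finset ℕ) :
    #{b ∈ Fintype.piFinset fun _ : Fin 4 => S | ¬∃ i₀, ∀ i, b i = b i₀ → i = i₀} ≤ 3 * #S ^ 2 := by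
  have hsub : {b ∈ Fintype.piFinset fun _ : Fin 4 => S | ¬∃ i₀, ∀ i, b i = b i₀ → i = i₀} ⊆
      ((S ×ˢ S).image (fun z => ![z.1, z.1, z.2, z.2]) ∪
        (S ×ˢ S).image (fun z => ![z.1, z.2, z.1, z.2])) ∪
        (S ×ˢ S).image (fun z => ![z.1, z.2, z.2, z.1]) := by
    intro b hb
    obtain ⟨hb1, hb2⟩ := mem_filter.1 hb
    rw [Fintype.mem_piFinset] at hb1
    push Not at hb2
    have k0 : b 1 = b 0 ∨ b 2 = b 0 ∨ b 3 = b 0 := by
      obtain ⟨i, hi, hne⟩ := hb2 0
      fin_cases i <;> simp_all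
    have k1 : b 0 = b 1 ∨ b 2 = b 1 ∨ b 3 = b 1 := by
      obtain ⟨i, hi, hne⟩ := hb2 1
      fin_cases i <;> simp_all
    have k2 : b 0 = b 2 ∨ b 1 = b 2 ∨ b 3 = b 2 := by
      obtain ⟨i, hi, hne⟩ := hb2 2
      fin_cases i <;> simp_all
    have k3 : b 0 = b 3 ∨ b 1 = b 3 ∨ b 2 = b 3 := by
      obtain ⟨i, hi, hne⟩ := hb2 3
      fin_cases i <;> simp_all
    have k : (b 1 = b 0 ∧ b 3 = b 2) ∨ (b 2 = b 0 ∧ b 3 = b 1) ∨ (b 3 = b 0 ∧ b 2 = b 1) := by
      omega
    simp only [mem_union, mem_image, mem_product]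
    rcases k with ⟨h1, h2⟩ | ⟨h1, h2⟩ | ⟨h1, h2⟩
    · refine Or.inl (Or.inl ⟨(b 0, b 2), ⟨hb1 0, hb1 2⟩, ?_⟩)
      funext i
      fin_cases i <;> simp [h1, h2]
    · refine Or.inl (Or.inr ⟨(b 0, b 1), ⟨hb1 0, hb1 1⟩, ?_⟩)
      funext i
      fin_cases i <;> simp [h1, h2]
    · refine Or.inr ⟨(b 0, b 1), ⟨hb1 0, hb1 1⟩, ?_⟩
      funext i
      fin_cases i <;> simp [h1, h2]
  refine (card_le_card hsub).trans ((card_union_le _ _).trans ?_)
  have h1 := card_union_le ((S ×ˢ S).image (fun z => ![z.1, z.1, z.2, z.2]))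
    ((S ×ˢ S).image (fun z => ![z.1, z.2, z.1, z.2]))
  have h2 := card_image_le (s := S ×ˢ S) (f := fun z => ![z.1, z.1, z.2, z.2])
  have h3 := card_image_le (s := S ×ˢ S) (f := fun z => ![z.1, z.2, z.1, z.2])
  have h4 := card_image_le (s := S ×ˢ S) (f := fun z => ![z.1, z.2, z.2, z.1])
  rw [card_product, ← sq] at h2 h3 h4
  omega

lemma momc_four (z : ℂ) :
    ((‖z‖ ^ 4 : ℝ) : ℂ) = ∏ i : Fin 4, momc_cj (![false, false, true, true] i) z := by
  have h := Complex.mul_conj' z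
  have e : ∏ i : Fin 4, momc_cj (![false, false, true, true] i) z =
      (z * (starRingEnd ℂ) z) * (z * (starRingEnd ℂ) z) := by
    simp [Fin.prod_univ_four, momc_cj]
    ring
  rw [e, h]
  push_cast
  ring

lemma momc_sum (e : Bool) (s : Finset ℕ) (f : ℕ → ℂ) :
    momc_cj e (∑ b ∈ s, f b) = ∑ b ∈ s, momc_cj e (f b) := by
  cases e <;> simp [momc_cj]

lemma momc_norm (e : Bool) (z : ℂ) : ‖momc_cj e z‖ = ‖z‖ := by
  cases e <;> simp [momc_cj]

theorem momc_row : MOMC_s := by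
  intro p _ ψ B hψ hB
  have : NeZero p := ⟨(Fact.out : p.Prime).ne_zero⟩
  have e1 : ((∑ x ∈ range p, ‖∑ b ∈ Icc 1 B, ψ ((x + b : ℕ) : ZMod p)‖ ^ 4 : ℝ) : ℂ) =
      ∑ b ∈ Fintype.piFinset fun _ : Fin 4 => Icc 1 B, ∑ x ∈ range p,
        ∏ i, momc_cj (![false, false, true, true] i) (ψ ((x : ZMod p) + (b i : ZMod p))) := by
    rw [Complex.ofReal_sum, sum_comm]
    refine sum_congr rfl fun x _ => ?_
    rw [momc_four]
    simp only [momc_sum, Nat.cast_add]
    rw [prod_univ_sum]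
  have e2 : ∀ b ∈ Fintype.piFinset fun _ : Fin 4 => Icc 1 B, ‖∑ x ∈ range p,
      ∏ i, momc_cj (![false, false, true, true] i) (ψ ((x : ZMod p) + (b i : ZMod p)))‖ ≤
        (if ¬∃ i₀, ∀ i, b i = b i₀ → i = i₀ then (p : ℝ) else 0) + 4 * √p := by
    intro b hb
    rw [Fintype.mem_piFinset] at hb
    split_ifs with h
    · obtain ⟨i₀, hi₀⟩ := h
      rw [momc_range p fun u =>
        ∏ i, momc_cj (![false, false, true, true] i) (ψ (u + (b i : ZMod p)))]
      have := momc_weil hψ (fun i => (b i : ZMod p)) ![false, false, true, true] i₀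
        fun i hi => hi₀ i (by
          have h1 := mem_Icc.1 (hb i)
          have h3 := mem_Icc.1 (hb i₀)
          have := (ZMod.natCast_eq_natCast_iff' _ _ p).1 hi
          rwa [Nat.mod_eq_of_lt (by omega), Nat.mod_eq_of_lt (by omega)] at this)
      simp only [Fintype.card_fin, ZMod.card] at this
      push_cast at this
      linarith
    · have h1 := (norm_sum_le (range p) fun x : ℕ =>
          ∏ i, momc_cj (![false, false, true, true] i) (ψ ((x : ZMod p) + (b i : ZMod p)))).trans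
        (sum_le_sum (g := fun _ => (1 : ℝ)) fun x _ => by
          rw [norm_prod]
          refine prod_le_one (fun _ _ => norm_nonneg _) fun i _ => ?_
          rw [momc_norm]
          exact ψ.norm_le_one _)
      simp only [sum_const, card_range, nsmul_eq_mul, mul_one] at h1
      have := Real.sqrt_nonneg (p : ℝ)
      linarith
  have e3 := (norm_sum_le _ _).trans (sum_le_sum e2)
  rw [← e1, Complex.norm_real, sum_add_distrib, ← sum_filter, sum_const, sum_const, nsmul_eq_mul,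
    nsmul_eq_mul, Fintype.card_piFinset, prod_const, card_univ, Fintype.card_fin] at e3
  have h3 := momc_count (Icc 1 B)
  have hc : #(Icc 1 B) = B := by simp
  rw [hc] at h3 e3
  have h4 : (#{b ∈ Fintype.piFinset fun _ : Fin 4 => Icc 1 B |
      ¬∃ i₀, ∀ i, b i = b i₀ → i = i₀} : ℝ) ≤ 3 * (B : ℝ) ^ 2 := by exact_mod_cast h3
  have h5 := mul_le_mul_of_nonneg_right h4 (Nat.cast_nonneg (α := ℝ) p)
  refine (le_abs_self _).trans (e3.trans ?_)
  push_cast
  linarith

end Pool.Agent.G94
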