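import Pool.Agent.MP_b5e119_nt.G94.Defs

namespace Pool.Agent.G94

open Finset Filter Topology Pool.Agent.G60

theorem nrm_div (a m : ℕ) (hm : 0 < m) :
    ((a / m : ℕ) : ℝ) ≤ (a : ℝ) / m ∧ (a : ℝ) / m ≤ ((a / m : ℕ) : ℝ) + 1 := by
  refine ⟨Nat.cast_div_le, ?_⟩
  have h : a ≤ (a / m + 1) * m := by
    have := Nat.lt_div_mul_add (a := a) hm
    nlinarith
  have hm' : (0 : ℝ) < m := by exact_mod_cast hm
  rw [div_le_iff₀ hm']
  exact_mod_cast h

theorem nrm_cnt (D m : ℕ) (hm : 0 < m) :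
    |(#{d ∈ Ioc D (2 * D) | m ∣ d} : ℝ) - D / m| ≤ 1 := by
  have h1 : #{d ∈ Ioc 0 (2 * D) | m ∣ d} =
      #{d ∈ Ioc 0 D | m ∣ d} + #{d ∈ Ioc D (2 * D) | m ∣ d} := by
    rw [← Ioc_union_Ioc_eq_Ioc (Nat.zero_le D) (show D ≤ 2 * D by omega), filter_union,
      card_union_of_disjoint]
    refine disjoint_filter_filter (disjoint_left.2 fun x hx hy => ?_)
    have := (mem_Ioc.1 hx).2
    have := (mem_Ioc.1 hy).1
    omega
  rw [Nat.Ioc_filter_dvd_card_eq_div, Nat.Ioc_filter_dvd_card_eq_div] at h1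
  have h2 : ((2 * D / m : ℕ) : ℝ) = ((D / m : ℕ) : ℝ) + (#{d ∈ Ioc D (2 * D) | m ∣ d} : ℝ) := by
    exact_mod_cast h1
  obtain ⟨a1, a2⟩ := nrm_div D m hm
  obtain ⟨b1, b2⟩ := nrm_div (2 * D) m hm
  have h3 : ((2 * D : ℕ) : ℝ) / m = 2 * ((D : ℝ) / m) := by push_cast; ring
  rw [h3] at b1 b2
  rw [abs_le]
  constructor <;> linarith

theorem nrm_exp (s : ℕ → ℝ) (R q d : ℕ) : (if q ∣ d then ww s R d else 0) =
    ∑ e ∈ Icc 1 R, ∑ e' ∈ Icc 1 R, if Nat.lcm (Nat.lcm e e') q ∣ d then s e * s e' else 0 := by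
  unfold ww
  rw [sq, sum_filter, sum_mul_sum]
  by_cases h : q ∣ d
  · rw [if_pos h]
    refine sum_congr rfl fun e _ => sum_congr rfl fun e' _ => ?_
    by_cases a : e ∣ d <;> by_cases b : e' ∣ d <;> simp [Nat.lcm_dvd_iff, h, a, b]
  · rw [if_neg h]
    symm
    refine sum_eq_zero fun e _ => sum_eq_zero fun e' _ => ?_
    simp [Nat.lcm_dvd_iff, h]

theorem nrm_q (s : ℕ → ℝ) (R D q : ℕ) (hq : 0 < q) (hs : ∀ e, |s e| ≤ 1) :
    ∑ d ∈ Ioc D (2 * D) with q ∣ d, ww s R d ≤ D * SQ s R q + (R : ℝ) ^ 2 := by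
  have hR : (D : ℝ) * SQ s R q + (R : ℝ) ^ 2 = ∑ e ∈ Icc 1 R, ∑ e' ∈ Icc 1 R,
      ((D : ℝ) * (s e * s e' / (Nat.lcm (Nat.lcm e e') q : ℝ)) + 1) := by
    simp only [SQ, mul_sum, sum_add_distrib, sum_const, Nat.card_Icc, Nat.add_sub_cancel,
      nsmul_eq_mul, mul_one]
    ring
  rw [hR, sum_filter, sum_congr rfl (fun d _ => nrm_exp s R q d), sum_comm]
  refine sum_le_sum fun e he => ?_
  rw [sum_comm]
  refine sum_le_sum fun e' he' => ?_
  have hm : 0 < Nat.lcm (Nat.lcm e e') q :=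
    Nat.lcm_pos (Nat.lcm_pos (mem_Icc.1 he).1 (mem_Icc.1 he').1) hq
  rw [← sum_filter, sum_const, nsmul_eq_mul]
  have h1 := nrm_cnt D _ hm
  have h2 : |s e * s e'| ≤ 1 := by
    rw [abs_mul]
    exact mul_le_one₀ (hs e) (abs_nonneg _) (hs e')
  have h3 := le_abs_self (((#{d ∈ Ioc D (2 * D) | Nat.lcm (Nat.lcm e e') q ∣ d} : ℝ) -
    D / (Nat.lcm (Nat.lcm e e') q : ℕ)) * (s e * s e'))
  rw [abs_mul] at h3
  have h4 := mul_le_one₀ h1 (abs_nonneg _) h2
  have h5 : (D : ℝ) * (s e * s e' / (Nat.lcm (Nat.lcm e e') q : ℕ)) =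
      D / (Nat.lcm (Nat.lcm e e') q : ℕ) * (s e * s e') := by ring
  rw [h5]
  linarith

theorem nrm_row : NRM_s := by
  classical
  intro s R z j hs
  have hw : ∀ d, 0 ≤ ww s R d := fun d => sq_nonneg _
  have h2 : 2 ^ (j + 1) = 2 * 2 ^ j := by ring
  calc _ ≤ ∑ d ∈ Ioc (2 ^ j) (2 ^ (j + 1)), ∑ q ∈ range z with q.Prime,
          (if q ∣ d then ww s R d else 0) := by
        rw [sum_filter]
        refine sum_le_sum fun d _ => ?_
        have hn : ∀ q ∈ (range z).filter Nat.Prime, 0 ≤ (if q ∣ d then ww s R d else 0) :=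
          fun q _ => by split_ifs; exacts [hw d, le_rfl]
        by_cases h : Rough z d
        · rw [if_neg (not_not.2 h)]
          exact sum_nonneg hn
        · rw [if_pos h]
          unfold Rough at h
          push Not at h
          obtain ⟨q, hq, hqd, hz⟩ := h
          have := single_le_sum hn (mem_filter.2 ⟨mem_range.2 hz, hq⟩)
          rwa [if_pos hqd] at this
    _ ≤ _ := by
        rw [sum_comm]
        refine sum_le_sum fun q hq => ?_
        have := nrm_q s R (2 ^ j) q (mem_filter.1 hq).2.pos hs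
        rw [sum_filter] at this
        rw [h2]
        exact_mod_cast this

end Pool.Agent.G94
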