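import Pool.Agent.MP_b5e119_nt.G94.Defs

namespace Pool.Agent.G94

open Finset Filter Topology Pool.Agent.G60

theorem sela_cop {l d : ℕ} (hl : Squarefree l) (hd : d ∣ l) : (l / d).Coprime d := by
  have h : Squarefree (l / d * d) := by rwa [Nat.div_mul_cancel hd]
  exact Nat.coprime_of_squarefree_mul h

theorem sela_term {l e : ℕ} (hl : Squarefree l) (he : e ∣ l) :
    (e : ℝ) * (1 / (l.totient : ℝ)) = ∑ d ∈ e.divisors, 1 / ((l / d).totient : ℝ) := by
  have h0 : (e : ℝ) = ∑ d ∈ e.divisors, (d.totient : ℝ) := by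
    exact_mod_cast (Nat.sum_totient e).symm
  rw [h0, sum_mul]
  refine sum_congr rfl fun d hd => ?_
  have hdl : d ∣ l := (Nat.dvd_of_mem_divisors hd).trans he
  have h1 : l.totient = (l / d).totient * d.totient := by
    rw [← Nat.totient_mul (sela_cop hl hdl), Nat.div_mul_cancel hdl]
  have h2 : (0 : ℝ) < d.totient := by
    exact_mod_cast Nat.totient_pos.2 (Nat.pos_of_mem_divisors hd)
  have h3 : (0 : ℝ) < (l / d).totient := by
    exact_mod_cast Nat.totient_pos.2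
      (Nat.div_pos (Nat.le_of_dvd (Nat.pos_of_ne_zero hl.ne_zero) hdl) (Nat.pos_of_mem_divisors hd))
  rw [h1]
  push_cast
  field_simp

theorem sela_key (R e : ℕ) :
    (e : ℝ) * ∑ l ∈ Icc 1 R with (Squarefree l ∧ e ∣ l), 1 / (l.totient : ℝ) ≤ sg R := by
  classical
  have inj : Set.InjOn (fun x : ℕ × ℕ => x.1 / x.2)
      (({l ∈ Icc 1 R | Squarefree l ∧ e ∣ l} ×ˢ e.divisors : Finset (ℕ × ℕ)) : Set (ℕ × ℕ)) := by
    rintro ⟨l, d⟩ hx ⟨l', d'⟩ hy h
    simp only [coe_product, Set.mem_prod, mem_coe, mem_filter] at hx hy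
    obtain ⟨⟨-, s1, e1⟩, d1⟩ := hx
    obtain ⟨⟨-, s2, e2⟩, d2⟩ := hy
    have d1' := Nat.dvd_of_mem_divisors d1
    have d2' := Nat.dvd_of_mem_divisors d2
    have h' : l / d = l' / d' := h
    have c1 := sela_cop s1 (d1'.trans e1)
    have c2 := sela_cop s2 (d2'.trans e2)
    have m1 : l / d * d = l := Nat.div_mul_cancel (d1'.trans e1)
    have m2 : l' / d' * d' = l' := Nat.div_mul_cancel (d2'.trans e2)
    have a1 : d' ∣ d := by
      refine c2.symm.dvd_of_dvd_mul_left ?_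
      rw [← h', m1]
      exact d2'.trans e1
    have a2 : d ∣ d' := by
      refine c1.symm.dvd_of_dvd_mul_left ?_
      rw [h', m2]
      exact d1'.trans e2
    obtain rfl := Nat.dvd_antisymm a1 a2
    rw [← m1, ← m2, h']
  rw [mul_sum, sum_congr rfl fun l hl => sela_term (mem_filter.1 hl).2.1 (mem_filter.1 hl).2.2,
    ← sum_product' _ _ fun l d : ℕ => 1 / ((l / d).totient : ℝ),
    ← sum_image (f := fun n : ℕ => 1 / (n.totient : ℝ)) inj]
  refine sum_le_sum_of_subset_of_nonneg (fun n hn => ?_) fun _ _ _ => by positivity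
  obtain ⟨⟨l, d⟩, hx, rfl⟩ := mem_image.1 hn
  obtain ⟨h1, h2⟩ := mem_product.1 hx
  obtain ⟨h3, h4, h5⟩ := mem_filter.1 h1
  have hdl : d ∣ l := (Nat.dvd_of_mem_divisors h2).trans h5
  exact mem_filter.2 ⟨mem_Icc.2 ⟨Nat.div_pos (Nat.le_of_dvd (mem_Icc.1 h3).1 hdl)
    (Nat.pos_of_mem_divisors h2), (Nat.div_le_self _ _).trans (mem_Icc.1 h3).2⟩,
    h4.squarefree_of_dvd (Nat.div_dvd_of_dvd hdl)⟩

theorem sela_pos {R : ℕ} (hR : 1 ≤ R) : 0 < sg R :=
  sum_pos' (fun _ _ => by positivity)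
    ⟨1, mem_filter.2 ⟨mem_Icc.2 ⟨le_rfl, hR⟩, squarefree_one⟩, by simp⟩

theorem sela_row : SELA_s := by
  intro R hR
  have hp := sela_pos hR
  refine ⟨?_, fun e => ?_⟩
  · simp only [sl, ArithmeticFunction.moebius_apply_one, one_dvd, and_true, Int.cast_one,
      Nat.cast_one, one_mul]
    exact div_self hp.ne'
  · have h1 : |(ArithmeticFunction.moebius e : ℝ)| ≤ 1 := by
      exact_mod_cast ArithmeticFunction.abs_moebius_le_one (n := e)
    have h2 : 0 ≤ (e : ℝ) * ∑ l ∈ Icc 1 R with (Squarefree l ∧ e ∣ l), 1 / (l.totient : ℝ) := by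
      positivity
    rw [sl, abs_div, abs_of_pos hp, div_le_one hp, mul_assoc, abs_mul, abs_of_nonneg h2]
    exact (mul_le_of_le_one_left h2 h1).trans (sela_key R e)

end Pool.Agent.G94
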