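import Pool.Agent.MP_b5e119_nt.G94.Defs

namespace Pool.Agent.G94

open Finset Filter Topology Pool.Agent.G60

theorem selb_mu0 (k : ℕ) :
    ∑ d ∈ k.divisors, (ArithmeticFunction.moebius d : ℝ) = if k = 1 then 1 else 0 := by
  have h := congrArg (fun f : ArithmeticFunction ℝ => f k)
    (ArithmeticFunction.coe_moebius_mul_coe_zeta (R := ℝ))
  simp only [ArithmeticFunction.coe_mul_zeta_apply, ArithmeticFunction.intCoe_apply,
    ArithmeticFunction.one_apply] at h
  exact h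

theorem selb_mu (R m l : ℕ) (hl : Squarefree l) (hR : l ≤ R) :
    ∑ e ∈ Icc 1 R with (m ∣ e ∧ e ∣ l), (ArithmeticFunction.moebius e : ℝ) =
      if l = m then (ArithmeticFunction.moebius m : ℝ) else 0 := by
  have hl0 : l ≠ 0 := hl.ne_zero
  by_cases hm : m ∣ l
  · obtain ⟨k, rfl⟩ := hm
    have hm0 : m ≠ 0 := left_ne_zero_of_mul hl0
    have hk0 : k ≠ 0 := right_ne_zero_of_mul hl0
    have hc : m.Coprime k := Nat.coprime_of_squarefree_mul hl
    have h1 : ∑ e ∈ Icc 1 R with (m ∣ e ∧ e ∣ m * k), (ArithmeticFunction.moebius e : ℝ) =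
        ∑ d ∈ k.divisors, (ArithmeticFunction.moebius (m * d) : ℝ) := by
      symm
      refine Finset.sum_bij (fun d _ => m * d) ?_ ?_ ?_ ?_
      · intro d hd
        have hd' := Nat.dvd_of_mem_divisors hd
        have h2 : m * d ∣ m * k := Nat.mul_dvd_mul_left m hd'
        refine mem_filter.2 ⟨mem_Icc.2 ⟨?_, (Nat.le_of_dvd (Nat.pos_of_ne_zero hl0) h2).trans hR⟩,
          Dvd.intro _ rfl, h2⟩
        exact Nat.pos_of_dvd_of_pos h2 (Nat.pos_of_ne_zero hl0)
      · intro a _ b _ h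
        exact Nat.eq_of_mul_eq_mul_left (Nat.pos_of_ne_zero hm0) h
      · intro e he
        obtain ⟨-, ⟨d, rfl⟩, h2⟩ := mem_filter.1 he
        exact ⟨d, Nat.mem_divisors.2 ⟨Nat.dvd_of_mul_dvd_mul_left (Nat.pos_of_ne_zero hm0) h2,
          hk0⟩, rfl⟩
      · intro d _
        rfl
    rw [h1, Finset.sum_congr rfl (g := fun d => (ArithmeticFunction.moebius m : ℝ) *
      (ArithmeticFunction.moebius d : ℝ)), ← mul_sum, selb_mu0]
    · by_cases e : k = 1
      · simp [e]
      · have : m * k ≠ m := fun h => e (Nat.eq_of_mul_eq_mul_left (Nat.pos_of_ne_zero hm0)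
          (h.trans (mul_one m).symm))
        simp [e, this]
    · intro d hd
      rw [ArithmeticFunction.isMultiplicative_moebius.map_mul_of_coprime
        (hc.coprime_dvd_right (Nat.dvd_of_mem_divisors hd)), Int.cast_mul]
  · rw [if_neg (fun h : l = m => hm (dvd_of_eq h.symm))]
    exact Finset.sum_eq_zero fun e he =>
      absurd ((mem_filter.1 he).2.1.trans (mem_filter.1 he).2.2) hm

theorem selb_y (R m : ℕ) (hm : 1 ≤ m) :
    ∑ e ∈ Icc 1 R with m ∣ e, sl R e / e =
      if m ≤ R then (ArithmeticFunction.moebius m : ℝ) / (m.totient : ℝ) / sg R else 0 := by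
  have h1 : ∀ e ∈ (Icc 1 R).filter (m ∣ ·), sl R e / e =
      (∑ l ∈ Icc 1 R with Squarefree l, if e ∣ l then
        (ArithmeticFunction.moebius e : ℝ) * (1 / (l.totient : ℝ)) else 0) / sg R := by
    intro e he
    have he0 : (e : ℝ) ≠ 0 := by
      have := (mem_Icc.1 (mem_filter.1 he).1).1
      positivity
    rw [← sum_filter, filter_filter, ← mul_sum, sl, div_right_comm]
    congr 1
    field_simp
  rw [Finset.sum_congr rfl h1, ← sum_div, sum_comm]
  have h2 : ∀ l ∈ (Icc 1 R).filter Squarefree, (∑ e ∈ Icc 1 R with m ∣ e, if e ∣ l then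
      (ArithmeticFunction.moebius e : ℝ) * (1 / (l.totient : ℝ)) else 0) =
      if l = m then (ArithmeticFunction.moebius m : ℝ) / (m.totient : ℝ) else 0 := by
    intro l hl
    rw [← sum_filter, filter_filter, ← sum_mul,
      selb_mu R m l (mem_filter.1 hl).2 (mem_Icc.1 (mem_filter.1 hl).1).2]
    split_ifs with h
    · rw [h, mul_one_div]
    · rw [zero_mul]
  rw [Finset.sum_congr rfl h2, sum_ite_eq']
  by_cases h3 : m ≤ R
  · by_cases h4 : Squarefree m
    · simp [hm, h3, h4]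
    · simp [h4, ArithmeticFunction.moebius_eq_zero_of_not_squarefree h4]
  · simp [h3]

theorem selb_split {e q : ℕ} (hq : q.Prime) (he : Squarefree e) :
    ∃ a : ℕ, a ≠ 0 ∧ q.Coprime a ∧ e = (if q ∣ e then q else 1) * a := by
  by_cases h : q ∣ e
  · obtain ⟨a, rfl⟩ := h
    exact ⟨a, right_ne_zero_of_mul he.ne_zero, Nat.coprime_of_squarefree_mul he, by simp⟩
  · exact ⟨e, he.ne_zero, (Nat.Prime.coprime_iff_not_dvd hq).2 h, by simp [h]⟩

theorem selb_lcm (R : ℕ) {e e' q : ℕ} (hq : q.Prime) (he : Squarefree e) (he' : Squarefree e')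
    (hR : e ≤ R) :
    1 / (Nat.lcm (Nat.lcm e e') q : ℝ) = (∑ l ∈ Icc 1 R with ¬q ∣ l, (l.totient : ℝ) *
      ((if l ∣ e then ((if q ∣ e then q else 1 : ℕ) : ℝ) / e else 0) *
        (if l ∣ e' then ((if q ∣ e' then q else 1 : ℕ) : ℝ) / e' else 0))) / q := by
  obtain ⟨a, ha0, ha, hea⟩ := selb_split hq he
  obtain ⟨b, hb0, hb, heb⟩ := selb_split hq he'
  have hg : (if q ∣ e then q else 1) ∣ q := by split_ifs <;> simp
  have hg' : (if q ∣ e' then q else 1) ∣ q := by split_ifs <;> simp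
  generalize (if q ∣ e then q else 1) = g at *
  generalize (if q ∣ e' then q else 1) = g' at *
  subst hea heb
  have g0 : g ≠ 0 := left_ne_zero_of_mul he.ne_zero
  have g0' : g' ≠ 0 := left_ne_zero_of_mul he'.ne_zero
  have h1 : Nat.lcm (Nat.lcm (g * a) (g' * b)) q = q * Nat.lcm a b := by
    apply Nat.dvd_antisymm
    · exact Nat.lcm_dvd (Nat.lcm_dvd (mul_dvd_mul hg (Nat.dvd_lcm_left a b))
        (mul_dvd_mul hg' (Nat.dvd_lcm_right a b))) (Dvd.intro _ rfl)
    · refine Nat.Coprime.mul_dvd_of_dvd_of_dvd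
        ((Nat.Coprime.mul_right ha hb).coprime_dvd_right (Nat.lcm_dvd_mul a b))
        (Nat.dvd_lcm_right _ _) (Nat.lcm_dvd ?_ ?_)
      · exact ((Dvd.intro_left g rfl).trans (Nat.dvd_lcm_left _ _)).trans (Nat.dvd_lcm_left _ _)
      · exact ((Dvd.intro_left g' rfl).trans (Nat.dvd_lcm_right _ _)).trans (Nat.dvd_lcm_left _ _)
  have key : ∀ {l c x : ℕ}, ¬q ∣ l → c ∣ q → l ∣ c * x → l ∣ x := fun {l c x} h1 h2 h3 =>
    (((Nat.Prime.coprime_iff_not_dvd hq).2 h1).symm.coprime_dvd_right h2).dvd_of_dvd_mul_left h3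
  have h2 : ∑ l ∈ Icc 1 R with ¬q ∣ l, (l.totient : ℝ) *
      ((if l ∣ g * a then (g : ℝ) / ((g * a : ℕ) : ℝ) else 0) *
        (if l ∣ g' * b then (g' : ℝ) / ((g' * b : ℕ) : ℝ) else 0)) =
      ∑ l ∈ (Nat.gcd a b).divisors,
        (l.totient : ℝ) * ((g : ℝ) / ((g * a : ℕ) : ℝ) * ((g' : ℝ) / ((g' * b : ℕ) : ℝ))) := by
    symm
    refine Finset.sum_subset_zero_on_sdiff ?_ ?_ ?_
    · intro l hl
      have hla : l ∣ a := (Nat.dvd_of_mem_divisors hl).trans (Nat.gcd_dvd_left a b)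
      refine mem_filter.2 ⟨mem_Icc.2 ⟨Nat.pos_of_dvd_of_pos hla (Nat.pos_of_ne_zero ha0),
        (Nat.le_of_dvd (Nat.pos_of_ne_zero he.ne_zero) (hla.mul_left g)).trans hR⟩, fun h => ?_⟩
      exact (Nat.Prime.coprime_iff_not_dvd hq).1 ha (h.trans hla)
    · intro l hl
      obtain ⟨h3, h4⟩ := mem_sdiff.1 hl
      have h5 := (mem_filter.1 h3).2
      by_cases c1 : l ∣ g * a
      · by_cases c2 : l ∣ g' * b
        · exact absurd (Nat.mem_divisors.2 ⟨Nat.dvd_gcd (key h5 hg c1) (key h5 hg' c2),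
            Nat.gcd_ne_zero_left ha0⟩) h4
        · simp [c2]
      · simp [c1]
    · intro l hl
      have hd := Nat.dvd_of_mem_divisors hl
      rw [if_pos ((hd.trans (Nat.gcd_dvd_left a b)).mul_left g),
        if_pos ((hd.trans (Nat.gcd_dvd_right a b)).mul_left g')]
  rw [h2, ← sum_mul, ← Nat.cast_sum, Nat.sum_totient, h1]
  have h3 : (Nat.gcd a b : ℝ) * Nat.lcm a b = a * b := by exact_mod_cast Nat.gcd_mul_lcm a b
  have h4 : (Nat.lcm a b : ℝ) ≠ 0 := by exact_mod_cast Nat.lcm_ne_zero ha0 hb0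
  have h5 : (q : ℝ) ≠ 0 := by exact_mod_cast hq.ne_zero
  have h6 : (a : ℝ) ≠ 0 := by exact_mod_cast ha0
  have h7 : (b : ℝ) ≠ 0 := by exact_mod_cast hb0
  have h8 : (g : ℝ) ≠ 0 := by exact_mod_cast g0
  have h9 : (g' : ℝ) ≠ 0 := by exact_mod_cast g0'
  push_cast
  field_simp
  linarith

theorem selb_Y (R q l : ℕ) (hq : q.Prime) (hl : ¬q ∣ l) (h1 : 1 ≤ l) (hR : l ≤ R) :
    ∑ e ∈ Icc 1 R, sl R e * (if l ∣ e then ((if q ∣ e then q else 1 : ℕ) : ℝ) / e else 0) =
      if R < q * l then (ArithmeticFunction.moebius l : ℝ) / (l.totient : ℝ) / sg R else 0 := by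
  have hc : q.Coprime l := (Nat.Prime.coprime_iff_not_dvd hq).2 hl
  have h2 : ∀ e ∈ Icc 1 R,
      sl R e * (if l ∣ e then ((if q ∣ e then q else 1 : ℕ) : ℝ) / e else 0) =
      (if l ∣ e then sl R e / e else 0) +
        ((q : ℝ) - 1) * (if q * l ∣ e then sl R e / e else 0) := by
    intro e _
    by_cases c1 : l ∣ e
    · by_cases c2 : q ∣ e
      · simp only [c1, c2, hc.mul_dvd_of_dvd_of_dvd c2 c1, if_true]
        ring
      · have : ¬q * l ∣ e := fun h => c2 ((Dvd.intro _ rfl).trans h)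
        simp only [c1, c2, this, if_true, if_false]
        push_cast
        ring
    · have : ¬q * l ∣ e := fun h => c1 ((Dvd.intro_left _ rfl).trans h)
      simp [c1, this]
  rw [Finset.sum_congr rfl h2, sum_add_distrib, ← mul_sum, ← sum_filter, ← sum_filter,
    selb_y R l h1, selb_y R (q * l) (Nat.mul_pos hq.pos h1), if_pos hR]
  by_cases c : R < q * l
  · rw [if_pos c, if_neg (not_le.2 c), mul_zero, add_zero]
  · rw [if_neg c, if_pos (not_lt.1 c), Nat.totient_mul hc, Nat.totient_prime hq,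
      ArithmeticFunction.isMultiplicative_moebius.map_mul_of_coprime hc,
      ArithmeticFunction.moebius_apply_prime hq]
    have h3 : (q : ℝ) - 1 ≠ 0 := by
      have : (1 : ℝ) < q := by exact_mod_cast hq.one_lt
      linarith
    have h4 : (l.totient : ℝ) ≠ 0 := by exact_mod_cast (Nat.totient_pos.2 h1).ne'
    rw [Nat.cast_mul, Nat.cast_sub hq.one_le]
    push_cast
    rw [div_eq_mul_inv _ (sg R), div_eq_mul_inv _ (sg R)]
    field_simp
    ring

theorem selb_row : SELB_s := by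
  intro R q _ hq
  have hz : ∀ e, ¬Squarefree e → sl R e = 0 := fun e h => by
    simp [sl, ArithmeticFunction.moebius_eq_zero_of_not_squarefree h]
  obtain ⟨t, ht⟩ : ∃ t : ℕ → ℕ → ℝ, t = fun l e =>
    if l ∣ e then ((if q ∣ e then q else 1 : ℕ) : ℝ) / e else 0 := ⟨_, rfl⟩
  have h1 : ∀ e ∈ Icc 1 R, ∀ e' ∈ Icc 1 R, sl R e * sl R e' / (Nat.lcm (Nat.lcm e e') q : ℝ) =
      ∑ l ∈ Icc 1 R with ¬q ∣ l, (l.totient : ℝ) / q * (sl R e * t l e * (sl R e' * t l e')) := by
    intro e he e' _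
    by_cases c1 : Squarefree e
    · by_cases c2 : Squarefree e'
      · rw [← mul_one_div, selb_lcm R hq c1 c2 (mem_Icc.1 he).2, sum_div, mul_sum]
        refine Finset.sum_congr rfl fun l _ => ?_
        rw [ht]
        ring
      · simp [hz e' c2]
    · simp [hz e c1]
  have h2 : SQ (sl R) R q = ∑ l ∈ Icc 1 R with ¬q ∣ l,
      (l.totient : ℝ) / q * (∑ e ∈ Icc 1 R, sl R e * t l e) ^ 2 := by
    rw [SQ, Finset.sum_congr rfl fun e he => Finset.sum_congr rfl (h1 e he),
      Finset.sum_congr rfl fun e _ => sum_comm, sum_comm]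
    refine Finset.sum_congr rfl fun l _ => ?_
    rw [sq, sum_mul_sum, mul_sum]
    exact Finset.sum_congr rfl fun e _ => by rw [mul_sum]
  rw [h2, sum_div, sum_filter, sum_filter]
  refine sum_le_sum fun l hl => ?_
  obtain ⟨l1, l2⟩ := mem_Icc.1 hl
  have h4 : (0 : ℝ) < l.totient := by exact_mod_cast Nat.totient_pos.2 l1
  have h5 : (0 : ℝ) < q := by exact_mod_cast hq.pos
  by_cases c : q ∣ l
  · rw [if_neg (not_not.2 c)]
    split_ifs
    · positivity
    · exact le_rfl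
  · rw [if_pos c, ht]
    simp only
    rw [selb_Y R q l hq c l1 l2]
    split_ifs
    · have h6 : (ArithmeticFunction.moebius l : ℝ) ^ 2 ≤ 1 := by
        rw [sq_le_one_iff_abs_le_one]
        exact_mod_cast ArithmeticFunction.abs_moebius_le_one
      have e : (l.totient : ℝ) / q * ((ArithmeticFunction.moebius l : ℝ) / l.totient / sg R) ^ 2 =
          (ArithmeticFunction.moebius l : ℝ) ^ 2 * (1 / (l.totient : ℝ) / (q * sg R ^ 2)) := by
        rw [div_eq_mul_inv _ (sg R), div_eq_mul_inv _ (q * sg R ^ 2), mul_inv, ← inv_pow]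
        field_simp
      rw [e]
      exact mul_le_of_le_one_left (by positivity) h6
    · simp

end Pool.Agent.G94
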