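import Pool.Agent.MP_b5e119_nt.G94.Defs

namespace Pool.Agent.G94

open Finset Filter Topology Pool.Agent.G60

theorem selc_phi (l : ℕ) :
    1 / (l.totient : ℝ) = (l : ℝ)⁻¹ * ∏ p ∈ l.primeFactors, (1 - (p : ℝ)⁻¹)⁻¹ := by
  have := congrArg (Rat.cast : ℚ → ℝ) (Nat.totient_eq_mul_prod_factors l)
  push_cast at this
  rw [this, one_div, mul_inv, prod_inv_distrib]

theorem selc_fac (l : ℕ) (T : Finset ℕ) (hT : ∀ m ∈ T, m ∈ Nat.factoredNumbers l.primeFactors) :
    ∑ m ∈ T, (m : ℝ)⁻¹ ≤ ∏ p ∈ l.primeFactors, (1 - (p : ℝ)⁻¹)⁻¹ := by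
  have h := (EulerProduct.summable_and_hasSum_factoredNumbers_prod_filter_prime_geometric
    (f := (⟨⟨fun n : ℕ => (n : ℝ)⁻¹, by simp⟩, fun a b => by simp [mul_comm]⟩ : ℕ →* ℝ))
    (fun {p} hp => by
      change ‖(p : ℝ)⁻¹‖ < 1
      rw [Real.norm_of_nonneg (by positivity)]
      exact inv_lt_one_of_one_lt₀ (by exact_mod_cast hp.one_lt)) l.primeFactors).2
  rw [filter_true_of_mem fun p hp => Nat.prime_of_mem_primeFactors hp] at h
  have h2 := (hasSum_subtype_iff_indicator (f := fun n : ℕ => (n : ℝ)⁻¹)).1 h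
  refine le_trans (le_of_eq (sum_congr rfl fun m hm => ?_))
    (sum_le_hasSum T (fun m _ => Set.indicator_nonneg (fun n _ => by positivity) m) h2)
  rw [Set.indicator_of_mem (hT m hm)]

theorem selc_low (R : ℕ) : Real.log R ≤ sg R := by
  have h1 : Real.log R ≤ ∑ n ∈ Icc 1 R, (n : ℝ)⁻¹ := by
    have := log_add_one_le_harmonic R
    rw [harmonic_eq_sum_Icc] at this
    push_cast at this
    rcases Nat.eq_zero_or_pos R with rfl | h
    · simp
    · exact (Real.log_le_log (by exact_mod_cast h) (by linarith)).trans this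
  refine h1.trans ?_
  rw [sg, ← sum_fiberwise_of_maps_to (t := {l ∈ Icc 1 R | Squarefree l})
    (g := fun n => UniqueFactorizationMonoid.radical n) fun n hn => ?_]
  · refine sum_le_sum fun l hl => ?_
    have l0 : 0 < l := (mem_Icc.1 (mem_filter.1 hl).1).1
    have d : ∀ n ∈ ({n ∈ Icc 1 R | UniqueFactorizationMonoid.radical n = l} : Finset ℕ), l ∣ n :=
      fun n hn => (mem_filter.1 hn).2 ▸ UniqueFactorizationMonoid.radical_dvd_self
    rw [selc_phi, sum_congr rfl (g := fun n => (l : ℝ)⁻¹ * ((n / l : ℕ) : ℝ)⁻¹) fun n hn => by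
      rw [← mul_inv, ← Nat.cast_mul, Nat.mul_div_cancel' (d n hn)], ← mul_sum,
      ← sum_image (g := fun n => n / l) (f := fun m : ℕ => (m : ℝ)⁻¹) fun a ha b hb e =>
        (Nat.div_left_inj (d a ha) (d b hb)).1 e]
    refine mul_le_mul_of_nonneg_left (selc_fac l _ fun m hm => ?_) (by positivity)
    obtain ⟨n, hn, rfl⟩ := mem_image.1 hm
    refine Nat.mem_factoredNumbers'.2 fun p hp h => ?_
    rw [← (mem_filter.1 hn).2, Nat.primeFactors_radical]
    exact Nat.mem_primeFactors.2 ⟨hp, h.trans (Nat.div_dvd_of_dvd (d n hn)),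
      (mem_Icc.1 (mem_filter.1 hn).1).1.trans_lt' Nat.zero_lt_one |>.ne'⟩
  · obtain ⟨a, b⟩ := mem_Icc.1 hn
    exact mem_filter.2 ⟨mem_Icc.2 ⟨Nat.pos_of_ne_zero UniqueFactorizationMonoid.radical_ne_zero,
      (Nat.le_of_dvd a UniqueFactorizationMonoid.radical_dvd_self).trans b⟩,
      UniqueFactorizationMonoid.squarefree_radical⟩

theorem selc_h {a M : ℕ} (ha : 1 ≤ a) (h : a ≤ M) :
    ∑ m ∈ Icc a M, (m : ℝ)⁻¹ ≤ 1 + Real.log M - Real.log a := by
  induction M, h using Nat.le_induction with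
  | base => simpa using inv_le_one_of_one_le₀ (show (1 : ℝ) ≤ a by exact_mod_cast ha)
  | succ M h ih =>
    have M0 : (0 : ℝ) < M := by exact_mod_cast ha.trans h
    have := Real.one_sub_inv_le_log_of_pos (show (0 : ℝ) < (M + 1) / M by positivity)
    rw [Real.log_div (by positivity) M0.ne', show 1 - (((M : ℝ) + 1) / M)⁻¹ = ((M : ℝ) + 1)⁻¹ by
      field_simp; ring] at this
    rw [sum_Icc_succ_top (by omega), Nat.cast_succ]
    linarith only [ih, this]

theorem selc_mul (R : ℕ) {q d : ℕ} (hq : 1 ≤ q) (hd : 0 < d) :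
    ∑ l ∈ {l ∈ Icc 1 R | R < q * l} with d ∣ l, (l : ℝ)⁻¹ ≤ (d : ℝ)⁻¹ * (1 + Real.log q) := by
  have q0 : 0 ≤ Real.log q := Real.log_natCast_nonneg q
  have s : ({l ∈ {l ∈ Icc 1 R | R < q * l} | d ∣ l} : Finset ℕ) ⊆
      (Icc (R / d / q + 1) (R / d)).image (d * ·) := fun l hl => by
    obtain ⟨h1, m, rfl⟩ := mem_filter.1 hl
    obtain ⟨h2, h3⟩ := mem_filter.1 h1
    refine mem_image.2 ⟨m, mem_Icc.2 ⟨?_, (Nat.le_div_iff_mul_le hd).2
      (mul_comm d m ▸ (mem_Icc.1 h2).2)⟩, rfl⟩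
    rw [Nat.succ_le_iff, Nat.div_div_eq_div_mul, Nat.div_lt_iff_lt_mul (by positivity)]
    exact h3.trans_eq (by ring)
  refine (sum_le_sum_of_subset_of_nonneg s fun _ _ _ => by positivity).trans ?_
  rw [sum_image fun a _ b _ e => Nat.eq_of_mul_eq_mul_left hd e]
  simp only [Nat.cast_mul, mul_inv, ← mul_sum]
  refine mul_le_mul_of_nonneg_left ?_ (by positivity)
  generalize R / d = M
  by_cases h : M / q + 1 ≤ M
  · refine (selc_h (Nat.succ_pos _) h).trans ?_
    have h1 : (M : ℝ) ≤ q * (M / q + 1 : ℕ) := by exact_mod_cast (Nat.lt_mul_div_succ M hq).le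
    have h2 := Real.log_le_log (by exact_mod_cast (Nat.succ_pos _).trans_le h) h1
    rw [Real.log_mul (by positivity) (by positivity)] at h2
    linarith only [h2]
  · rw [Icc_eq_empty h, sum_empty]
    linarith only [q0]

theorem selc_tel (R : ℕ) : ∑ n ∈ Icc 2 (R + 1), ((n : ℝ) - 1)⁻¹ * (n : ℝ)⁻¹ = 1 - ((R : ℝ) + 1)⁻¹ := by
  induction R with
  | zero => simp
  | succ R ih =>
    rw [sum_Icc_succ_top (by omega), ih]
    push_cast
    rw [add_sub_cancel_right]
    field_simp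
    ring

theorem selc_row : SELC_s := by
  refine ⟨selc_low, Real.exp 1, Real.exp_pos 1, fun R q hq => ?_⟩
  have q0 : 0 ≤ 1 + Real.log q := by linarith only [Real.log_natCast_nonneg q]
  have w0 : ∀ S ∈ (Icc 2 (R + 1)).powerset, ∀ n ∈ S, 0 ≤ ((n : ℝ) - 1)⁻¹ := fun S hS n hn =>
    inv_nonneg.2 (sub_nonneg.2 (by
      exact_mod_cast (show 1 ≤ n from one_le_two.trans (mem_Icc.1 (mem_powerset.1 hS hn)).1)))
  calc ∑ l ∈ Icc 1 R with R < q * l, 1 / (l.totient : ℝ)
      ≤ ∑ l ∈ Icc 1 R with R < q * l, ∑ S ∈ (Icc 2 (R + 1)).powerset with ∏ n ∈ S, n ∣ l,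
        (∏ n ∈ S, ((n : ℝ) - 1)⁻¹) * (l : ℝ)⁻¹ := by
        refine sum_le_sum fun l hl => ?_
        obtain ⟨l1, l2⟩ := mem_Icc.1 (mem_filter.1 hl).1
        rw [selc_phi, prod_congr rfl (g := fun p : ℕ => 1 + ((p : ℝ) - 1)⁻¹) fun p hp => ?_,
          prod_one_add, ← sum_mul, mul_comm]
        · refine mul_le_mul_of_nonneg_right (sum_le_sum_of_subset_of_nonneg (fun S hS => ?_)
            fun S hS _ => prod_nonneg (w0 S (mem_filter.1 hS).1)) (by positivity)
          have hS' := mem_powerset.1 hS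
          exact mem_filter.2 ⟨mem_powerset.2 fun n hn => mem_Icc.2
            ⟨(Nat.prime_of_mem_primeFactors (hS' hn)).two_le,
              (Nat.le_of_mem_primeFactors (hS' hn)).trans (by omega)⟩,
            (prod_dvd_prod_of_subset _ _ _ hS').trans (Nat.prod_primeFactors_dvd l)⟩
        · have : (1 : ℝ) < p := by exact_mod_cast (Nat.prime_of_mem_primeFactors hp).one_lt
          have h1 : (p : ℝ) - 1 ≠ 0 := by linarith only [this] |> fun h : 0 < (p : ℝ) - 1 => h.ne'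
          field_simp
          ring
    _ = ∑ S ∈ (Icc 2 (R + 1)).powerset, (∏ n ∈ S, ((n : ℝ) - 1)⁻¹) *
        ∑ l ∈ {l ∈ Icc 1 R | R < q * l} with ∏ n ∈ S, n ∣ l, (l : ℝ)⁻¹ := by
        simp only [sum_filter (fun S : Finset ℕ => ∏ n ∈ S, n ∣ _)]
        rw [sum_comm]
        exact sum_congr rfl fun S _ => by rw [mul_sum, sum_filter (fun l => ∏ n ∈ S, n ∣ l)]
    _ ≤ ∑ S ∈ (Icc 2 (R + 1)).powerset, (∏ n ∈ S, ((n : ℝ) - 1)⁻¹ * (n : ℝ)⁻¹) *
        (1 + Real.log q) := by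
        refine sum_le_sum fun S hS => ?_
        rw [prod_mul_distrib, mul_assoc, prod_inv_distrib (f := fun n : ℕ => (n : ℝ)),
          ← Nat.cast_prod]
        exact mul_le_mul_of_nonneg_left (selc_mul R hq (prod_pos fun n hn =>
          two_pos.trans_le (mem_Icc.1 (mem_powerset.1 hS hn)).1)) (prod_nonneg (w0 S hS))
    _ ≤ Real.exp 1 * (1 + Real.log q) := by
        rw [← sum_mul, ← prod_one_add]
        refine mul_le_mul_of_nonneg_right ((prod_le_prod (fun n hn => ?_) fun n _ =>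
          (add_comm _ _).trans_le (Real.add_one_le_exp _)).trans ?_) q0
        · have := w0 _ (mem_powerset_self _) n hn
          positivity
        · rw [← Real.exp_sum, selc_tel]
          exact Real.exp_le_exp.2 (sub_le_self _ (by positivity))

end Pool.Agent.G94
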