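import Pool.Agent.MP_b5e119_nt.G94.Defs

namespace Pool.Agent.G94

open Finset Filter Topology Pool.Agent.G60

theorem typ_ff (p : ℕ) [Fact p.Prime] {u : ℕ} (h0 : 0 < u) (h : u < p) :
    ff p (u : ZMod p) = lam u := by
  rw [ff, if_neg, ZMod.val_cast_of_lt h]
  rw [ZMod.natCast_eq_zero_iff]
  exact Nat.not_dvd_of_pos_of_lt h0 h

theorem typ_cnt {ι : Type} (p : ℕ) [Fact p.Prime] (w : ZMod p → ℝ) (hw : ∀ a, 0 ≤ w a)
    (P : Finset ι) (D Y : ι → ℕ) (C : ℕ) (hP : ∀ i ∈ P, 0 < D i ∧ D i * Y i < p)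
    (hC : ∀ u, 0 < u → u < p → #{i ∈ P | D i ∣ u} ≤ C) :
    ∑ i ∈ P, ∑ n ∈ Icc 1 (Y i), w ((D i * n : ℕ) : ZMod p) ≤ C * ∑ a, w a := by
  have h1 : ∀ i ∈ P, ∑ n ∈ Icc 1 (Y i), w ((D i * n : ℕ) : ZMod p) ≤
      ∑ u ∈ Ico 1 p, if D i ∣ u then w (u : ZMod p) else 0 := fun i hi => by
    obtain ⟨a, b⟩ := hP i hi
    rw [← sum_filter, ← sum_image (s := Icc 1 (Y i)) (g := fun n => D i * n)
      (f := fun u : ℕ => w (u : ZMod p)) fun x _ y _ e => Nat.eq_of_mul_eq_mul_left a e]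
    refine sum_le_sum_of_subset_of_nonneg (fun u hu => ?_) fun u _ _ => hw _
    obtain ⟨n, hn, rfl⟩ := mem_image.1 hu
    rw [mem_Icc] at hn
    exact mem_filter.2 ⟨mem_Ico.2 ⟨Nat.mul_pos a hn.1,
      (Nat.mul_le_mul_left _ hn.2).trans_lt b⟩, dvd_mul_right _ n⟩
  have h2 : ∑ u ∈ Ico 1 p, w (u : ZMod p) ≤ ∑ a, w a := by
    rw [← sum_image (s := Ico 1 p) (g := fun u : ℕ => (u : ZMod p)) (f := w) fun x hx y hy e => by
      have := congrArg ZMod.val e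
      rwa [ZMod.val_cast_of_lt (mem_Ico.1 hx).2, ZMod.val_cast_of_lt (mem_Ico.1 hy).2] at this]
    exact sum_le_univ_sum_of_nonneg hw
  refine (sum_le_sum h1).trans ?_
  rw [sum_comm]
  refine le_trans ?_ (mul_le_mul_of_nonneg_left h2 (Nat.cast_nonneg _))
  rw [mul_sum]
  refine sum_le_sum fun u hu => ?_
  rw [mem_Ico] at hu
  rw [← sum_filter, sum_const, nsmul_eq_mul]
  exact mul_le_mul_of_nonneg_right (Nat.cast_le.2 (hC u hu.1 hu.2)) (hw _)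

theorem typ_norm (n : ℕ) : ‖(lam n : ℂ)‖ = 1 := by
  rcases lam_cases n with e | e <;> simp [e]

open Classical in
theorem typ_pair (hP : PAR_s) (hL : LOC_s) (p : ℕ) [Fact p.Prime] (Λ : Finset (Ch p)) (X : ℕ)
    (h1 : 2 * X < p) (h2 : 2 * #Λ * √p ≤ X) (G : ZMod p → ℂ)
    (hG : ∀ a, G a = ∑ χ ∈ Λᶜ, co p (fun a => (ff p a : ℂ)) χ * χ a) {q q' : ℕ} (hq : 0 < q)
    (hq' : 0 < q') (k : q * (2 * X) < p) (k' : q' * (2 * X) < p) :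
    (X : ℝ) / 2 * ∑ χ ∈ Λ, mu p χ *
      ‖(lam q : ℂ) * χ (q : ZMod p) - (lam q' : ℂ) * χ (q' : ZMod p)‖ ^ 2 ≤
      2 * ∑ n ∈ Icc 1 (2 * X), ‖G ((q * n : ℕ) : ZMod p)‖ ^ 2 +
        2 * ∑ n ∈ Icc 1 (2 * X), ‖G ((q' * n : ℕ) : ZMod p)‖ ^ 2 := by
  have a := hL p Λ (fun χ => co p (fun a => (ff p a : ℂ)) χ *
    ((lam q : ℂ) * χ (q : ZMod p) - (lam q' : ℂ) * χ (q' : ZMod p))) X h1 h2
  simp only [norm_mul, mul_pow] at a
  refine a.trans ?_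
  rw [mul_sum, mul_sum, ← sum_add_distrib]
  refine sum_le_sum fun n hn => ?_
  rw [mem_Icc] at hn
  have e : ∀ r : ℕ, 0 < r → r * (2 * X) < p →
      (lam r : ℂ) * ∑ χ ∈ Λ, co p (fun a => (ff p a : ℂ)) χ * χ ((r * n : ℕ) : ZMod p) +
        (lam r : ℂ) * G ((r * n : ℕ) : ZMod p) = (lam n : ℂ) := fun r hr kr => by
    rw [← mul_add, hG, sum_add_sum_compl, ← (hP p).1 (fun a => (ff p a : ℂ)) (by simp [ff]),
      typ_ff p (Nat.mul_pos hr hn.1) ((Nat.mul_le_mul_left r hn.2).trans_lt kr),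
      lam_mul hr.ne' (by omega)]
    rcases lam_cases r with e | e <;> simp [e]
  have e2 : ∑ χ ∈ Λ, co p (fun a => (ff p a : ℂ)) χ *
      ((lam q : ℂ) * χ (q : ZMod p) - (lam q' : ℂ) * χ (q' : ZMod p)) * χ (n : ZMod p) =
      (lam q' : ℂ) * G ((q' * n : ℕ) : ZMod p) - (lam q : ℂ) * G ((q * n : ℕ) : ZMod p) := by
    have := (e q hq k).trans (e q' hq' k').symm
    rw [show (lam q' : ℂ) * G ((q' * n : ℕ) : ZMod p) - (lam q : ℂ) * G ((q * n : ℕ) : ZMod p) =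
      (lam q : ℂ) * ∑ χ ∈ Λ, co p (fun a => (ff p a : ℂ)) χ * χ ((q * n : ℕ) : ZMod p) -
        (lam q' : ℂ) * ∑ χ ∈ Λ, co p (fun a => (ff p a : ℂ)) χ * χ ((q' * n : ℕ) : ZMod p) by
          linear_combination -this, mul_sum, mul_sum, ← sum_sub_distrib]
    refine sum_congr rfl fun χ _ => ?_
    rw [Nat.cast_mul, Nat.cast_mul, map_mul, map_mul]
    ring
  rw [e2]
  have := norm_sub_le ((lam q' : ℂ) * G ((q' * n : ℕ) : ZMod p))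
    ((lam q : ℂ) * G ((q * n : ℕ) : ZMod p))
  rw [norm_mul, norm_mul, typ_norm, typ_norm, one_mul, one_mul] at this
  have := pow_le_pow_left₀ (norm_nonneg _) this 2
  nlinarith [sq_nonneg (‖G ((q' * n : ℕ) : ZMod p)‖ - ‖G ((q * n : ℕ) : ZMod p)‖)]

theorem typ_num (p j X : ℕ) (u : ℝ) (hp : 2 ^ 200 ≤ p) (hj : 20 * (j + 1) ≤ 9 * Nat.log 2 p)
    (hX : p ≤ 2 ^ (j + 2) * (X + 1)) (hu : u ≤ (p : ℝ) ^ (1 / 50 : ℝ)) :
    2 * u * √p ≤ X ∧ (1 : ℝ) ≤ X := by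
  have p0 : (0 : ℝ) ≤ p := Nat.cast_nonneg _
  obtain ⟨t, t0, ht⟩ : ∃ t : ℝ, 0 ≤ t ∧ (p : ℝ) = t ^ 100 :=
    ⟨(p : ℝ) ^ ((100 : ℕ)⁻¹ : ℝ), by positivity, (Real.rpow_inv_natCast_pow p0 (by norm_num)).symm⟩
  have t4 : 4 ≤ t := by
    refine le_of_pow_le_pow_left₀ (n := 100) (by norm_num) t0 ?_
    rw [← ht, show (4 : ℝ) = 2 ^ 2 by norm_num, ← pow_mul]
    exact_mod_cast hp
  have a : u ≤ t ^ 2 := by
    rw [ht, ← Real.rpow_natCast, ← Real.rpow_mul t0] at hu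
    rw [← Real.rpow_natCast]
    exact hu.trans_eq (congrArg _ (by norm_num))
  have b : √(p : ℝ) = t ^ 50 := by
    rw [ht, show t ^ 100 = (t ^ 50) ^ 2 by ring, Real.sqrt_sq (by positivity)]
  have c : (2 : ℝ) ^ (j + 1) ≤ t ^ 45 := by
    refine le_of_pow_le_pow_left₀ (n := 20) (by norm_num) (by positivity) ?_
    have : (2 ^ (j + 1)) ^ 20 ≤ p ^ 9 := by
      refine le_trans ?_ (Nat.pow_le_pow_left (Nat.pow_log_le_self 2
        (Nat.pos_iff_ne_zero.1 (lt_of_lt_of_le (by positivity) hp))) 9)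
      rw [← pow_mul, ← pow_mul]
      exact Nat.pow_le_pow_right two_pos (by omega)
    rw [show (t ^ 45) ^ 20 = (t ^ 100) ^ 9 by ring, ← ht]
    exact_mod_cast this
  have d : t ^ 45 * t ^ 55 ≤ t ^ 45 * (2 * (X + 1)) := by
    have : (p : ℝ) ≤ 2 ^ (j + 2) * (X + 1) := by exact_mod_cast hX
    rw [← pow_add, ← ht, ← mul_assoc]
    refine this.trans (mul_le_mul_of_nonneg_right ?_ (by positivity))
    rw [pow_succ]
    linarith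
  have d2 := le_of_mul_le_mul_left d (pow_pos (by linarith) _)
  have e1 : (1 : ℝ) ≤ t ^ 52 := one_le_pow₀ (by linarith)
  have e2 : (4 : ℝ) ^ 3 ≤ t ^ 3 := pow_le_pow_left₀ (by norm_num) t4 3
  have e3 := mul_le_mul_of_nonneg_left e2 (pow_nonneg t0 52)
  have e4 := mul_le_mul_of_nonneg_right a (pow_nonneg t0 50)
  rw [show t ^ 52 * t ^ 3 = t ^ 55 by ring] at e3
  rw [show t ^ 2 * t ^ 50 = t ^ 52 by ring] at e4
  rw [b, mul_assoc]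
  generalize t ^ 52 = x at *
  generalize t ^ 55 = y at *
  constructor <;> linarith

open Classical in
theorem typ_row (hPAR : PAR_s) (hLOC : LOC_s) (hRG : RG_s) (_hDYP : DYP_s) : TYP_s := by
  refine ⟨2 ^ 200, fun p hp h0 z k U hz hk h5 hU => ?_⟩
  have p1 : 1 ≤ p := hp.out.pos
  have l2 : 200 ≤ Nat.log 2 p := Nat.le_log_of_pow_le one_lt_two h0
  obtain ⟨G, hG⟩ : ∃ G : ZMod p → ℂ,
      ∀ a, G a = ∑ χ ∈ Uᶜ, co p (fun a => (ff p a : ℂ)) χ * χ a := ⟨_, fun _ => rfl⟩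
  have g1 : ∑ a, ‖G a‖ ^ 2 = ((p : ℝ) - 1) * ∑ χ ∈ Uᶜ, mu p χ := by
    have := (hPAR p).2 fun χ => if χ ∈ Uᶜ then co p (fun a => (ff p a : ℂ)) χ else 0
    simp only [ite_mul, zero_mul, sum_ite_mem, univ_inter, apply_ite (fun z : ℂ => ‖z‖ ^ 2),
      norm_zero, zero_pow two_ne_zero] at this
    simp only [hG, mu]
    exact this
  have kd : ∀ j, ∀ d ∈ RR z j, 0 < d ∧ d * (2 * ((p - 1) / 2 ^ (j + 2))) < p := fun j d hd => by
    obtain ⟨a, b⟩ := mem_Ioc.1 (mem_filter.1 hd).1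
    have c := Nat.mul_le_mul_right (2 * ((p - 1) / 2 ^ (j + 2))) b
    rw [← mul_assoc (2 ^ (j + 1)), ← pow_succ, add_assoc j 1 1] at c
    exact ⟨lt_of_le_of_lt (Nat.zero_le _) a,
      (c.trans (Nat.mul_div_le _ _)).trans_lt (Nat.sub_lt p1 one_pos)⟩
  obtain ⟨J, hJ⟩ : ∃ J, J = Ico ((2 * Nat.log 2 p + 4) / 5) (9 * Nat.log 2 p / 20) := ⟨_, rfl⟩
  have cJ : Nat.log 2 p ≤ 25 * #J := by
    rw [hJ, Nat.card_Ico]
    omega
  have c1 := typ_cnt p (fun a => ‖G a‖ ^ 2) (fun _ => sq_nonneg _) (J.sigma (RR z)) (fun i => i.2)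
    (fun i => 2 * ((p - 1) / 2 ^ (i.1 + 2))) (2 ^ k) (fun i hi => kd _ _ (mem_sigma.1 hi).2)
    fun u u0 u1 => le_trans (card_le_card_of_injOn (fun i => i.2) (fun i hi => ?_)
      fun i hi i' hi' e => ?_) (hRG z k u hz u0 (u1.trans_le hk))
  rotate_left
  · obtain ⟨a, b⟩ := mem_filter.1 (mem_coe.1 hi)
    exact mem_coe.2 (mem_filter.2 ⟨Nat.mem_divisors.2 ⟨b, u0.ne'⟩,
      (mem_filter.1 (mem_sigma.1 a).2).2⟩)
  · obtain ⟨a, b⟩ := mem_Ioc.1 (mem_filter.1 (mem_sigma.1 (mem_filter.1 (mem_coe.1 hi)).1).2).1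
    obtain ⟨a', b'⟩ := mem_Ioc.1 (mem_filter.1 (mem_sigma.1 (mem_filter.1 (mem_coe.1 hi')).1).2).1
    have e' : i.2 = i'.2 := e
    have x := (Nat.pow_lt_pow_iff_right one_lt_two).1 (a.trans_le (e' ▸ b'))
    have y := (Nat.pow_lt_pow_iff_right one_lt_two).1 (a'.trans_le (e' ▸ b))
    exact Sigma.ext (by omega) (heq_of_eq e')
  rw [sum_sigma, g1] at c1
  obtain ⟨j, hj, mj⟩ := exists_min_image J (fun j => ∑ d ∈ RR z j,
    ∑ n ∈ Icc 1 (2 * ((p - 1) / 2 ^ (j + 2))), ‖G ((d * n : ℕ) : ZMod p)‖ ^ 2)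
    (card_pos.1 (by omega))
  have c2 := (card_nsmul_le_sum _ _ _ mj).trans c1
  rw [hJ, mem_Ico] at hj
  have ne : (RR z j).Nonempty := by
    obtain ⟨q, a, b, c⟩ := Nat.exists_prime_lt_and_le_two_mul (2 ^ j) (by positivity)
    refine ⟨q, mem_filter.2 ⟨mem_Ioc.2 ⟨b, by rwa [pow_succ']⟩, fun r hr d => ?_⟩⟩
    rw [(Nat.prime_dvd_prime_iff_eq hr a).1 d]
    refine le_trans (lt_of_pow_lt_pow_left₀ 5 (Nat.zero_le _) ?_).le b.le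
    rw [← pow_mul]
    exact (h5.trans_lt (Nat.lt_pow_succ_log_self one_lt_two p)).trans_le
      (Nat.pow_le_pow_right two_pos (by omega))
  obtain ⟨X, hX⟩ : ∃ X, X = (p - 1) / 2 ^ (j + 2) := ⟨_, rfl⟩
  have kj := kd j
  rw [← hX] at c2 kj
  obtain ⟨d₀, h₀, m₀⟩ := exists_min_image (RR z j) (fun d =>
    ∑ n ∈ Icc 1 (2 * X), ‖G ((d * n : ℕ) : ZMod p)‖ ^ 2) ne
  have c3 := card_nsmul_le_sum _ _ _ m₀
  refine ⟨j, by omega, by omega, d₀, h₀, ?_⟩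
  have x2 : p - 1 < 2 ^ (j + 2) * (X + 1) := hX ▸ Nat.lt_mul_div_succ _ (by positivity)
  have x3 : p ≤ 2 ^ (j + 2) * (X + 1) := by omega
  obtain ⟨n1, n2⟩ := typ_num p j X _ h0 (by omega) x3 hU
  have x6 : 2 * X < p := lt_of_le_of_lt (Nat.le_mul_of_pos_left _ (kj d₀ h₀).1) (kj d₀ h₀).2
  have m := sum_le_sum fun d (hd : d ∈ RR z j) =>
    typ_pair hPAR hLOC p U X x6 n1 G hG (kj d hd).1 (kj d₀ h₀).1 (kj d hd).2 (kj d₀ h₀).2
  simp only [sum_add_distrib, sum_const, nsmul_eq_mul, ← mul_sum] at m c2 c3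
  rw [sum_comm] at m
  simp only [← mul_sum] at m
  have e0 : 0 ≤ ∑ χ ∈ Uᶜ, mu p χ := sum_nonneg fun _ _ => sq_nonneg _
  have s0 : 0 ≤ ∑ d ∈ RR z j, ∑ n ∈ Icc 1 (2 * X), ‖G ((d * n : ℕ) : ZMod p)‖ ^ 2 := by positivity
  have l0 : (0 : ℝ) < Nat.log 2 p := by exact_mod_cast (by omega : 0 < Nat.log 2 p)
  have cJ' : (Nat.log 2 p : ℝ) ≤ 25 * #J := by exact_mod_cast cJ
  have pp : (p : ℝ) - 1 ≤ 8 * 2 ^ j * X := by
    have : (p : ℝ) ≤ 2 ^ (j + 2) * (X + 1) := by exact_mod_cast x3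
    rw [pow_add] at this
    nlinarith [mul_le_mul_of_nonneg_left n2 (by positivity : (0 : ℝ) ≤ 2 ^ j)]
  rw [Nat.cast_pow, Nat.cast_ofNat] at c2
  have k0 : (0 : ℝ) ≤ 2 ^ k := by positivity
  have w1 := c2.trans (mul_le_mul_of_nonneg_left (mul_le_mul_of_nonneg_right pp e0) k0)
  have w2 := mul_le_mul_of_nonneg_right cJ' s0
  have w3 := mul_le_mul_of_nonneg_left (m.trans (show _ ≤ 4 * ∑ d ∈ RR z j,
    ∑ n ∈ Icc 1 (2 * X), ‖G ((d * n : ℕ) : ZMod p)‖ ^ 2 by linarith)) l0.le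
  rw [le_div_iff₀ l0]
  refine le_of_mul_le_mul_left (a := (X : ℝ) / 2) ?_ (by linarith)
  linarith

end Pool.Agent.G94
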