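import Pool.Agent.MP_b5e119_nt.G94.Defs

namespace Pool.Agent.G94

open Finset Filter Topology Pool.Agent.G60

theorem ws_mul (p : ℕ) (ψ : Ch p) (l b : ℕ) (hl : 0 < l) :
    ∑ d ∈ Ioc 0 b with l ∣ d, ψ (d : ZMod p) =
      ψ (l : ZMod p) * ∑ n ∈ Icc 1 (b / l), ψ (n : ZMod p) := by
  rw [mul_sum]
  symm
  refine sum_bij (fun n _ => l * n) ?_ ?_ ?_ ?_
  · intro n hn
    rw [mem_Icc, Nat.le_div_iff_mul_le hl] at hn
    simp only [mem_filter, mem_Ioc]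
    exact ⟨⟨Nat.mul_pos hl hn.1, by rw [mul_comm]; exact hn.2⟩, dvd_mul_right _ _⟩
  · intro a _ c _ h
    exact Nat.eq_of_mul_eq_mul_left hl h
  · intro d hd
    simp only [mem_filter, mem_Ioc] at hd
    obtain ⟨⟨h0, hb⟩, n, rfl⟩ := hd
    refine ⟨n, ?_, rfl⟩
    rw [mem_Icc, Nat.le_div_iff_mul_le hl]
    exact ⟨Nat.pos_of_mul_pos_left h0, by rw [mul_comm]; exact hb⟩
  · intro n _
    rw [Nat.cast_mul, map_mul]

theorem ws_one (p : ℕ) (ψ : Ch p) (l a b : ℕ) (B : ℝ) (hl : 0 < l) (hab : a ≤ b)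
    (ha : ‖∑ n ∈ Icc 1 (a / l), ψ (n : ZMod p)‖ ≤ B)
    (hb : ‖∑ n ∈ Icc 1 (b / l), ψ (n : ZMod p)‖ ≤ B) :
    ‖∑ d ∈ Ioc a b with l ∣ d, ψ (d : ZMod p)‖ ≤ 2 * B := by
  have h : ∑ d ∈ Ioc 0 a with l ∣ d, ψ (d : ZMod p) + ∑ d ∈ Ioc a b with l ∣ d, ψ (d : ZMod p) =
      ∑ d ∈ Ioc 0 b with l ∣ d, ψ (d : ZMod p) := by
    simp only [sum_filter]
    exact sum_Ioc_consecutive _ (Nat.zero_le a) hab
  rw [ws_mul p ψ l a hl, ws_mul p ψ l b hl] at h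
  rw [eq_sub_of_add_eq' h, ← mul_sub, norm_mul]
  have h1 := ψ.norm_le_one (l : ZMod p)
  have h2 := norm_sub_le (∑ n ∈ Icc 1 (b / l), ψ (n : ZMod p))
    (∑ n ∈ Icc 1 (a / l), ψ (n : ZMod p))
  calc _ ≤ 1 * ‖∑ n ∈ Icc 1 (b / l), ψ (n : ZMod p) - ∑ n ∈ Icc 1 (a / l), ψ (n : ZMod p)‖ :=
        mul_le_mul_of_nonneg_right h1 (norm_nonneg _)
    _ ≤ 2 * B := by linarith

theorem ws_ww (s : ℕ → ℝ) (R d : ℕ) : ww s R d =
    ∑ e ∈ Icc 1 R, ∑ e' ∈ Icc 1 R, if Nat.lcm e e' ∣ d then s e * s e' else 0 := by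
  rw [ww, sq, sum_filter, sum_mul_sum]
  refine sum_congr rfl fun e _ => sum_congr rfl fun e' _ => ?_
  by_cases h : e ∣ d <;> by_cases h' : e' ∣ d <;> simp [h, h', Nat.lcm_dvd_iff]

theorem ws_row : WS_s := by
  intro p ψ s R j B hs hB hN
  have key : ∑ d ∈ Ioc (2 ^ j) (2 ^ (j + 1)), (ww s R d : ℂ) * ψ (d : ZMod p) =
      ∑ e ∈ Icc 1 R, ∑ e' ∈ Icc 1 R, ((s e * s e' : ℝ) : ℂ) *
        ∑ d ∈ Ioc (2 ^ j) (2 ^ (j + 1)) with Nat.lcm e e' ∣ d, ψ (d : ZMod p) := by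
    simp only [ws_ww, Complex.ofReal_sum, sum_mul]
    rw [sum_comm]
    refine sum_congr rfl fun e _ => ?_
    rw [sum_comm]
    refine sum_congr rfl fun e' _ => ?_
    rw [sum_filter, mul_sum]
    refine sum_congr rfl fun d _ => ?_
    split_ifs <;> simp
  rw [key]
  have hone : ∀ e ∈ Icc 1 R, ∀ e' ∈ Icc 1 R, ‖((s e * s e' : ℝ) : ℂ) *
      ∑ d ∈ Ioc (2 ^ j) (2 ^ (j + 1)) with Nat.lcm e e' ∣ d, ψ (d : ZMod p)‖ ≤ 2 * B := by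
    intro e he e' he'
    rw [mem_Icc] at he he'
    have hl : 0 < Nat.lcm e e' := Nat.lcm_pos he.1 he'.1
    have hle : Nat.lcm e e' ≤ R ^ 2 := by
      calc Nat.lcm e e' ≤ e * e' :=
            Nat.le_of_dvd (Nat.mul_pos he.1 he'.1) (Nat.lcm_dvd_mul e e')
        _ ≤ R * R := Nat.mul_le_mul he.2 he'.2
        _ = R ^ 2 := (sq R).symm
    have hab : 2 ^ j ≤ 2 ^ (j + 1) := Nat.pow_le_pow_right (by norm_num) (Nat.le_succ j)
    have h1 : 2 ^ j / R ^ 2 ≤ 2 ^ j / Nat.lcm e e' := Nat.div_le_div_left hle hl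
    have h2 := ws_one p ψ (Nat.lcm e e') (2 ^ j) (2 ^ (j + 1)) B hl hab
      (hN _ h1 ((Nat.div_le_self _ _).trans hab))
      (hN _ (h1.trans (Nat.div_le_div_right hab)) (Nat.div_le_self _ _))
    rw [norm_mul, Complex.norm_real, Real.norm_eq_abs, abs_mul]
    have h3 : |s e| * |s e'| ≤ 1 := mul_le_one₀ (hs e) (abs_nonneg _) (hs e')
    calc _ ≤ 1 * (2 * B) := mul_le_mul h3 h2 (norm_nonneg _) zero_le_one
      _ = 2 * B := one_mul _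
  calc _ ≤ ∑ e ∈ Icc 1 R, ∑ e' ∈ Icc 1 R, 2 * B :=
        (norm_sum_le _ _).trans (sum_le_sum fun e he =>
          (norm_sum_le _ _).trans (sum_le_sum fun e' he' => hone e he e' he'))
    _ = 2 * (R : ℝ) ^ 2 * B := by
        simp only [sum_const, Nat.card_Icc, Nat.add_sub_cancel, nsmul_eq_mul]
        ring

end Pool.Agent.G94
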