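import Pool.Agent.MP_b5e119_nt.G60.BIL
import Pool.Agent.MP_b5e119_nt.G60.CHEB
import Pool.Agent.MP_b5e119_nt.G60.ENE
import Pool.Agent.MP_b5e119_nt.G60.HYP
import Pool.Agent.MP_b5e119_nt.G60.LIO
import Pool.Agent.MP_b5e119_nt.G60.LIO1
import Pool.Agent.MP_b5e119_nt.G60.LOC
import Pool.Agent.MP_b5e119_nt.G60.MON
import Pool.Agent.MP_b5e119_nt.G60.ODD3
import Pool.Agent.MP_b5e119_nt.G60.SEC
import Pool.Agent.MP_b5e119_nt.G60.SQ
import Pool.Agent.MP_b5e119_nt.G60.UNIQ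
import Pool.Agent.MP_b5e119_nt.G42.Climb
import Pool.Agent.MP_b5e119_nt.G94.BUR1C
import Pool.Agent.MP_b5e119_nt.G94.BURC
import Pool.Agent.MP_b5e119_nt.G94.CONP
import Pool.Agent.MP_b5e119_nt.G94.DYP
import Pool.Agent.MP_b5e119_nt.G94.ENDG
import Pool.Agent.MP_b5e119_nt.G94.KEY
import Pool.Agent.MP_b5e119_nt.G94.KEY1
import Pool.Agent.MP_b5e119_nt.G94.MERT
import Pool.Agent.MP_b5e119_nt.G94.MOMC
import Pool.Agent.MP_b5e119_nt.G94.NRM
import Pool.Agent.MP_b5e119_nt.G94.ODP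
import Pool.Agent.MP_b5e119_nt.G94.RG
import Pool.Agent.MP_b5e119_nt.G94.SELA
import Pool.Agent.MP_b5e119_nt.G94.SELB
import Pool.Agent.MP_b5e119_nt.G94.SELC
import Pool.Agent.MP_b5e119_nt.G94.STRP
import Pool.Agent.MP_b5e119_nt.G94.TYP
import Pool.Agent.MP_b5e119_nt.G94.WS

/-! Assembly of the climb and the end game. -/

namespace Pool.Agent.G94

open Pool.Agent.G60

theorem fewp [Sg] : FEWP_s := fun e he => by
  obtain ⟨δ, hδ, p₀, h⟩ := Pool.Agent.G42.fewm (1 / 50) e (by norm_num) he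
  exact ⟨δ, p₀, hδ, h⟩

theorem key : KEY_s :=
  key_row dyp_row sela_row selb_row selc_row (mert_row cheb_row) nrm_row ws_row (key1_row rg_row)
    (burc_row momc_row (bur1c_row ene_row))

theorem endg : ENDG_s :=
  endg_row (typ_row par_row (loc_row (bil_row sec_row)) rg_row dyp_row) key

theorem strp [Sg] : STRP_s :=
  strp_row (conp_row (dir_row sub_row tr_row) (mu_row par_row) fewp endg) uniq_row

theorem odp [Sg] : ODP_s := odp_row (lio_row sq_row hyp_row lio1_row) odd3_row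

theorem topp : TOPP_s := topp_row (fun i => @strp i) fun i => @odp i

end Pool.Agent.G94
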