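import Pool.Agent.MP_b5e119_nt.G94.Defs
import Pool.Agent.MP_b5e119_nt.G27.Defs

/-! Primes with a deficient sign pattern repel each other. -/

namespace Pool.Agent.G94

open Finset Filter Topology Pool.Agent.G60

def excB (p : ℕ) [Fact p.Prime] (m : ℕ) (τ : ℤ) : ℕ := #{n ∈ Icc 1 (2 ^ m) | lam n ≠ τ * leg p n}

def excM (p : ℕ) [Fact p.Prime] (m : ℕ) : ℕ := min (excB p m 1) (excB p m (-1))

theorem exc_leg (p : ℕ) [hp : Fact p.Prime] {n : ℕ} (h0 : 0 < n) (h : n < p) :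
    leg p n = 1 ∨ leg p n = -1 := by
  refine legendreSym.eq_one_or_neg_one p ?_
  rw [Int.cast_natCast, Ne, ZMod.natCast_eq_zero_iff]
  exact Nat.not_dvd_of_pos_of_lt h0 h

theorem exc_one (p : ℕ) [Fact p.Prime] {σ : ℤ} (hσ : σ = 1 ∨ σ = -1) {q m : ℕ} (hq : q.Prime)
    (h : q * 2 ^ m < p) :
    excM p m ≤ #{u ∈ {n ∈ Ico 1 p | lam n ≠ σ * leg p n} | q ∣ u} := by
  have q1 : q < p := lt_of_le_of_lt (Nat.le_mul_of_pos_right q (by positivity)) h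
  have a : excM p m ≤ excB p m (-σ * leg p q) := by
    rcases hσ with rfl | rfl <;> rcases exc_leg p hq.pos q1 with e | e <;> rw [e] <;>
      simp [excM]
  refine a.trans (card_le_card_of_injOn (fun n => q * n) (fun n hn => ?_) fun a _ b _ e =>
    Nat.eq_of_mul_eq_mul_left hq.pos e)
  simp only [coe_filter, mem_Icc, Set.mem_ofPred_eq, mem_filter, mem_Ico] at hn ⊢
  obtain ⟨⟨n1, n2⟩, n3⟩ := hn
  refine ⟨⟨⟨Nat.mul_pos hq.pos n1, lt_of_le_of_lt (Nat.mul_le_mul_left q n2) h⟩, fun e => n3 ?_⟩,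
    dvd_mul_right _ _⟩
  rw [lam_mul hq.ne_zero (by omega), lam_prime hq, leg_mul] at e
  linarith

theorem exc_om {u i k : ℕ} (h0 : 0 < u) (h : u < 2 ^ (i * (k + 1))) (Q : Finset ℕ)
    (hQ : ∀ q ∈ Q, q.Prime ∧ 2 ^ i ≤ q) : #{q ∈ Q | q ∣ u} ≤ k := by
  have h1 : ∏ q ∈ Q with q ∣ u, q ∣ u :=
    prod_primes_dvd u (fun q hq => (hQ q (mem_filter.1 hq).1).1.prime)
      fun q hq => (mem_filter.1 hq).2
  have h2 : (2 ^ i) ^ #{q ∈ Q | q ∣ u} ≤ ∏ q ∈ Q with q ∣ u, q :=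
    pow_card_le_prod _ _ _ fun q hq => (hQ q (mem_filter.1 hq).1).2
  have h3 := lt_of_le_of_lt (h2.trans (Nat.le_of_dvd h0 h1)) h
  rw [← pow_mul, Nat.pow_lt_pow_iff_right one_lt_two] at h3
  exact Nat.lt_succ_iff.1 (Nat.lt_of_mul_lt_mul_left h3)

theorem exc_down {i₀ : ℕ} (hD : ∀ i, i₀ ≤ i → 2 ^ i ≤ 2 * (i + 1) * #(PD i)) (p : ℕ)
    [hp : Fact p.Prime] {σ : ℤ} (hσ : σ = 1 ∨ σ = -1) {t : ℕ} (t1 : i₀ + 101 ≤ t)
    (h1 : 50 * t ≤ Nat.log 2 p) (h2 : Nat.log 2 p ≤ 100 * t + 99) {η : ℝ}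
    (hE : (Ex p σ : ℝ) ≤ η * p) :
    ∑ m ∈ Ico (48 * t) (49 * t), (excM p m : ℝ) / 2 ^ m ≤ 85648 * η * t := by
  have l1 : 2 ^ Nat.log 2 p ≤ p := Nat.pow_log_le_self 2 hp.out.ne_zero
  have l2 : p < 2 ^ (Nat.log 2 p + 1) := Nat.lt_pow_succ_log_self one_lt_two p
  generalize Nat.log 2 p = l at *
  obtain ⟨X, hX⟩ : ∃ X, X = {n ∈ Ico 1 p | lam n ≠ σ * leg p n} := ⟨_, rfl⟩
  have hP : ∀ i, ∀ q ∈ PD i, q.Prime ∧ 2 ^ i < q ∧ q ≤ 2 ^ (i + 1) := fun i q hq => by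
    simp only [PD, mem_filter, mem_Ioc] at hq
    exact ⟨hq.2, hq.1⟩
  have a1 : ∀ m ∈ Ico (48 * t) (49 * t), #(PD (l - m - 2)) * excM p m ≤
      ∑ q ∈ PD (l - m - 2), #{u ∈ X | q ∣ u} := fun m hm => by
    rw [mem_Ico] at hm
    rw [← smul_eq_mul]
    refine card_nsmul_le_sum _ _ _ fun q hq => ?_
    rw [hX]
    refine exc_one p hσ (hP _ q hq).1 (lt_of_le_of_lt (Nat.mul_le_mul_right _ (hP _ q hq).2.2) ?_)
    rw [← pow_add]
    exact lt_of_lt_of_le (Nat.pow_lt_pow_right one_lt_two (by omega)) l1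
  have a2 : ∑ m ∈ Ico (48 * t) (49 * t), ∑ q ∈ PD (l - m - 2), #{u ∈ X | q ∣ u} =
      ∑ q ∈ (Ico (48 * t) (49 * t)).biUnion fun m => PD (l - m - 2), #{u ∈ X | q ∣ u} := by
    refine (sum_biUnion fun m hm m' hm' hne => disjoint_left.2 fun q hq hq' => hne ?_).symm
    have b1 := lt_of_lt_of_le (hP _ q hq).2.1 (hP _ q hq').2.2
    have b2 := lt_of_lt_of_le (hP _ q hq').2.1 (hP _ q hq).2.2
    rw [Nat.pow_lt_pow_iff_right one_lt_two] at b1 b2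
    simp only [coe_Ico, Set.mem_Ico] at hm hm'
    omega
  have a3 : ∑ q ∈ (Ico (48 * t) (49 * t)).biUnion fun m => PD (l - m - 2), #{u ∈ X | q ∣ u} ≤
      #X * 101 := by
    simp only [card_filter]
    rw [sum_comm, ← smul_eq_mul]
    refine sum_le_card_nsmul _ _ _ fun u hu => ?_
    rw [← card_filter]
    rw [hX, mem_filter, mem_Ico] at hu
    refine exc_om (i := t - 1) hu.1.1 (hu.1.2.trans (l2.trans_le
      (Nat.pow_le_pow_right two_pos (by omega)))) _ fun q hq => ?_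
    obtain ⟨m, hm, hq⟩ := mem_biUnion.1 hq
    rw [mem_Ico] at hm
    exact ⟨(hP _ q hq).1, (Nat.pow_le_pow_right two_pos (by omega)).trans (hP _ q hq).2.1.le⟩
  have a4 : ((∑ m ∈ Ico (48 * t) (49 * t), #(PD (l - m - 2)) * excM p m : ℕ) : ℝ) ≤ 101 * (η * p) := by
    have b : (#X : ℝ) ≤ η * p := by rw [hX]; exact hE
    have c : ((∑ m ∈ Ico (48 * t) (49 * t), #(PD (l - m - 2)) * excM p m : ℕ) : ℝ) ≤ (#X * 101 : ℕ) :=
      Nat.cast_le.2 ((sum_le_sum a1).trans (a2.le.trans a3))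
    push_cast at c ⊢
    linarith
  have p0 : (0 : ℝ) < p := Nat.cast_pos.2 hp.out.pos
  have a5 : ∀ m ∈ Ico (48 * t) (49 * t), (excM p m : ℝ) / 2 ^ m ≤
      848 * t / p * ((#(PD (l - m - 2)) * excM p m : ℕ) : ℝ) := fun m hm => by
    rw [mem_Ico] at hm
    have b1 := hD (l - m - 2) (by omega)
    have b2 : p ≤ 848 * t * #(PD (l - m - 2)) * 2 ^ m := by
      have e : 2 ^ (l + 1) = 8 * 2 ^ (l - m - 2) * 2 ^ m := by
        rw [show l + 1 = 3 + (l - m - 2) + m by omega, pow_add, pow_add]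
        rfl
      refine l2.le.trans (e.le.trans (Nat.mul_le_mul_right _ ?_))
      have b3 : 2 * (l - m - 2 + 1) * #(PD (l - m - 2)) ≤ 106 * t * #(PD (l - m - 2)) :=
        Nat.mul_le_mul_right _ (by omega)
      linarith
    have b4 : (p : ℝ) ≤ 848 * t * #(PD (l - m - 2)) * 2 ^ m := by exact_mod_cast b2
    rw [div_mul_eq_mul_div, div_le_div_iff₀ (by positivity) p0]
    push_cast
    nlinarith [mul_le_mul_of_nonneg_left b4 (Nat.cast_nonneg (α := ℝ) (excM p m))]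
  refine (sum_le_sum a5).trans ?_
  rw [← mul_sum, ← Nat.cast_sum]
  refine (mul_le_mul_of_nonneg_left a4 (by positivity)).trans (le_of_eq ?_)
  field_simp
  ring

theorem exc_sum (p p' : ℕ) [Fact p.Prime] [Fact p'.Prime] (m : ℕ) :
    (2 : ℝ) ^ m - 2 * (excM p m + excM p' m) ≤
      |∑ t ∈ range (2 ^ m), ((1 * jacobiSym ((1 + t : ℕ) : ℤ) (p * p') : ℤ) : ℝ)| := by
  have hm : ∀ (r : ℕ) [Fact r.Prime], ∃ τ : ℤ, (τ = 1 ∨ τ = -1) ∧ excM r m = excB r m τ :=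
    fun r _ => (min_choice (excB r m 1) (excB r m (-1))).elim (fun h => ⟨1, Or.inl rfl, h⟩)
      fun h => ⟨-1, Or.inr rfl, h⟩
  obtain ⟨τ, hτ, e⟩ := hm p
  obtain ⟨τ', hτ', e'⟩ := hm p'
  have s1 : ∑ t ∈ range (2 ^ m), ((1 * jacobiSym ((1 + t : ℕ) : ℤ) (p * p') : ℤ) : ℝ) =
      ∑ n ∈ Icc 1 (2 ^ m), ((leg p n * leg p' n : ℤ) : ℝ) := by
    rw [range_eq_Ico, ← Ico_add_one_right_eq_Icc, ← sum_Ico_add' _ 0 (2 ^ m) 1]
    refine sum_congr rfl fun t _ => ?_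
    rw [one_mul, jacobiSym.mul_right, add_comm 1 t, leg, leg, jacobiSym.legendreSym.to_jacobiSym,
      jacobiSym.legendreSym.to_jacobiSym]
  have hl : ∀ (r : ℕ) [Fact r.Prime] (n : ℕ), leg r n = 0 ∨ leg r n = 1 ∨ leg r n = -1 :=
    fun r _ n => by
      rw [leg, jacobiSym.legendreSym.to_jacobiSym]; exact jacobiSym.trichotomy _ _
  have s2 : ∀ n ∈ Icc 1 (2 ^ m), (1 : ℝ) - 2 * ((if lam n ≠ τ * leg p n then 1 else 0) +
      (if lam n ≠ τ' * leg p' n then 1 else 0)) ≤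
        ((τ * τ' : ℤ) : ℝ) * ((leg p n * leg p' n : ℤ) : ℝ) := fun n _ => by
    rcases hτ with rfl | rfl <;> rcases hτ' with rfl | rfl <;> rcases lam_cases n with a | a <;>
      rcases hl p n with b | b | b <;> rcases hl p' n with c | c | c <;> rw [a, b, c] <;> norm_num
  have s3 := sum_le_sum s2
  rw [sum_sub_distrib, ← mul_sum, ← mul_sum, sum_add_distrib, sum_boole, sum_boole, sum_const,
    Nat.card_Icc, Nat.add_sub_cancel, nsmul_eq_mul, mul_one] at s3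
  rw [s1, e, e', excB, excB]
  push_cast at s3 ⊢
  refine s3.trans ((le_abs_self _).trans (le_of_eq ?_))
  rw [abs_mul]
  rcases hτ with rfl | rfl <;> rcases hτ' with rfl | rfl <;> simp

theorem exc_rep (hD : DYP_s) (hB : G27.BURJ_s) : ∃ p₀ : ℕ, ∀ (p p' : ℕ) [Fact p.Prime]
    [Fact p'.Prime] (σ σ' : ℤ), p₀ ≤ p → p < p' → (σ = 1 ∨ σ = -1) → (σ' = 1 ∨ σ' = -1) →
      (Ex p σ : ℝ) ≤ 1 / 700000 * p → (Ex p' σ' : ℝ) ≤ 1 / 700000 * p' → p ^ 2 < p' := by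
  obtain ⟨i₀, hD⟩ := hD
  obtain ⟨κ, hκ, r₀, hB⟩ := hB
  obtain ⟨r₁, h1⟩ := eventually_atTop.1 (((tendsto_rpow_neg_atTop hκ).comp
    tendsto_natCast_atTop_atTop).eventually_le_const (show (0 : ℝ) < 1 / 4 by norm_num))
  refine ⟨r₀ + r₁ + 2 ^ (50 * (i₀ + 200)), fun p p' hp hp' σ σ' h0 hlt hσ hσ' hE hE' => ?_⟩
  by_contra hc
  have l0 : 50 * (i₀ + 200) ≤ Nat.log 2 p := Nat.le_log_of_pow_le one_lt_two (by omega)
  have l1 : Nat.log 2 p ≤ Nat.log 2 p' := Nat.log_mono_right hlt.le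
  have l2 : p < 2 ^ (Nat.log 2 p + 1) := Nat.lt_pow_succ_log_self one_lt_two p
  have l3 : p' < 2 ^ (Nat.log 2 p' + 1) := Nat.lt_pow_succ_log_self one_lt_two p'
  have l4 : Nat.log 2 p' < (Nat.log 2 p + 1) * 2 := by
    rw [← Nat.pow_lt_pow_iff_right one_lt_two, pow_mul]
    exact lt_of_le_of_lt ((Nat.pow_log_le_self 2 hp'.out.ne_zero).trans
      (not_lt.1 hc)) (Nat.pow_lt_pow_left l2 (by norm_num))
  obtain ⟨t, ht⟩ : ∃ t, t = Nat.log 2 p / 50 := ⟨_, rfl⟩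
  have d1 := exc_down hD p hσ (t := t) (by omega) (by omega) (by omega) hE
  have d2 := exc_down hD p' hσ' (t := t) (by omega) (by omega) (by omega) hE'
  obtain ⟨m, hm, h⟩ : ∃ m ∈ Ico (48 * t) (49 * t),
      (excM p m : ℝ) / 2 ^ m + (excM p' m : ℝ) / 2 ^ m ≤ 1 / 4 := by
    refine exists_le_of_sum_le ⟨48 * t, mem_Ico.2 (by omega)⟩ ?_
    rw [sum_add_distrib, sum_const, Nat.card_Ico, show 49 * t - 48 * t = t by omega, nsmul_eq_mul]
    linarith [Nat.cast_nonneg (α := ℝ) t]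
  rw [mem_Ico] at hm
  rw [← add_div, div_le_iff₀ (by positivity)] at h
  have p2 : 2 < p := lt_of_lt_of_le (by norm_num : 2 < 2 ^ 2) ((Nat.pow_le_pow_right two_pos
    (by omega)).trans (le_of_add_le_right h0))
  have r1 : p ≤ p * p' := Nat.le_mul_of_pos_right p hp'.out.pos
  have b := hB (p * p') 1 (2 ^ m) (fun _ => 1)
    ((le_of_add_le_left (le_of_add_le_left h0)).trans r1)
    ((Nat.squarefree_mul ((Nat.coprime_primes hp.out hp'.out).2 hlt.ne)).2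
      ⟨hp.out.squarefree, hp'.out.squarefree⟩)
    ((hp.out.odd_of_ne_two (by omega)).mul (hp'.out.odd_of_ne_two (by omega)))
    ⟨fun _ => by simp, fun _ => rfl⟩
  have b1 := (exc_sum p p' m).trans b
  have b2 : ((p * p' : ℕ) : ℝ) ^ (-κ) ≤ 1 / 4 := h1 (p * p')
    ((le_of_add_le_right (le_of_add_le_left h0)).trans r1)
  have b3 : 16 * ((p * p' : ℕ) : ℝ) ^ (0.318 : ℝ) ≤ 2 ^ m := by
    have c1 : ((p * p' : ℕ) : ℝ) ≤ 2 ^ (150 * t + 150) := by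
      have : p * p' ≤ 2 ^ (150 * t + 150) := (Nat.mul_le_mul l2.le l3.le).trans (by
        rw [← pow_add]; exact Nat.pow_le_pow_right two_pos (by omega))
      exact_mod_cast this
    refine (mul_le_mul_of_nonneg_left (Real.rpow_le_rpow (by positivity) c1 (by norm_num))
      (by norm_num)).trans ?_
    rw [show (16 : ℝ) = 2 ^ (4 : ℝ) by norm_num, ← Real.rpow_natCast, ← Real.rpow_natCast,
      ← Real.rpow_mul two_pos.le, ← Real.rpow_add two_pos]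
    refine Real.rpow_le_rpow_of_exponent_le one_le_two ?_
    have c2 : (48 * t : ℝ) ≤ m := by exact_mod_cast hm.1
    have c3 : (200 : ℝ) ≤ t := by exact_mod_cast (by omega : 200 ≤ t)
    push_cast
    linarith
  have b4 : (0 : ℝ) < 2 ^ m := by positivity
  have b5 := mul_le_mul_of_nonneg_left b2 b4.le
  rw [Nat.cast_pow, Nat.cast_ofNat] at b1
  linarith

def TOPE_s : Prop := ∃ (c : ℝ) (p₀ : ℕ) (E : Set ℕ), 0 < c ∧
  (∀ p ∈ E, ∀ p' ∈ E, p < p' → p ^ 2 < p') ∧ ∀ (p : ℕ) [Fact p.Prime], p₀ ≤ p →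
    ∀ e e' : ℤ, (e = 1 ∨ e = -1) → (e' = 1 ∨ e' = -1) → (p ∉ E ∨ e * e' = leg p (p - 1)) →
      c * p ≤ cnt p e e'

theorem tope_row (hD : DYP_s) (hB : G27.BURJ_s) (hS : ∀ i : Sg, @STRP_s i)
    (hO : ∀ i : Sg, @ODP_s i) : TOPE_s := by
  have key : ∀ i : Sg, ∃ (c : ℝ) (p₀ : ℕ), 0 < c ∧ ∀ (p : ℕ) [Fact p.Prime], p₀ ≤ p →
      ∀ e : ℤ, (e = 1 ∨ e = -1) → (cnt p e (-i.s * e) : ℝ) ≤ c * p → ∃ σ : ℤ, (σ = 1 ∨ σ = -1) ∧
        (Ex p σ : ℝ) ≤ 1 / 700000 * p ∧ leg p (p - 1) = i.s := by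
    intro i
    obtain ⟨δ, p₁, hδ, h1⟩ := hS i (1 / 700000) (by norm_num)
    obtain ⟨c, p₂, hc, h2⟩ := hO i δ hδ
    exact ⟨c, max p₁ p₂, hc, fun p _ hp e he h => h1 p (le_of_max_le_left hp)
      (h2 p (le_of_max_le_right hp) e he h)⟩
  obtain ⟨c₁, p₁, hc₁, h1⟩ := key ⟨1, Or.inl rfl⟩
  obtain ⟨c₂, p₂, hc₂, h2⟩ := key ⟨-1, Or.inr rfl⟩
  obtain ⟨p₃, h3⟩ := exc_rep hD hB
  refine ⟨min c₁ c₂, max (max p₁ p₂) p₃, {p | p₃ ≤ p ∧ ∃ (_ : Fact p.Prime) (σ : ℤ), (σ = 1 ∨ σ = -1) ∧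
    (Ex p σ : ℝ) ≤ 1 / 700000 * p} , lt_min hc₁ hc₂, ?_, ?_⟩
  · rintro p ⟨h0, _, σ, hσ, hE⟩ p' ⟨-, _, σ', hσ', hE'⟩ hlt
    exact h3 p p' σ σ' h0 hlt hσ hσ' hE hE'
  · intro p hp h0 e e' he he' hh
    by_contra hc
    have b1 : min c₁ c₂ * p ≤ c₁ * p := mul_le_mul_of_nonneg_right (min_le_left _ _) (by positivity)
    have b2 : min c₁ c₂ * p ≤ c₂ * p :=
      mul_le_mul_of_nonneg_right (min_le_right _ _) (by positivity)
    have fin : ∀ s : ℤ, (s = 1 ∨ s = -1) → e' = -s * e → (∃ σ : ℤ, (σ = 1 ∨ σ = -1) ∧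
        (Ex p σ : ℝ) ≤ 1 / 700000 * p ∧ leg p (p - 1) = s) → False := by
      rintro s hs e1 ⟨σ, hσ, hE, hl⟩
      rcases hh with hh | hh
      · exact hh ⟨le_of_max_le_right h0, hp, σ, hσ, hE⟩
      · rw [hl, e1] at hh
        rcases he with rfl | rfl <;> omega
    rcases (by omega : e' = -1 * e ∨ e' = - -1 * e) with e1 | e1
    · refine fin 1 (Or.inl rfl) e1 (h1 p (le_of_max_le_left (le_of_max_le_left h0)) e he ?_)
      rw [e1] at hc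
      exact (not_le.1 hc).le.trans b1
    · refine fin (-1) (Or.inr rfl) e1 (h2 p (le_of_max_le_right (le_of_max_le_left h0)) e he ?_)
      rw [e1] at hc
      exact (not_le.1 hc).le.trans b2

end Pool.Agent.G94
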