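import Pool.Agent.MP_b5e119_nt.G94.Main
import Pool.Agent.MP_b5e119_nt.G94.EXC
import Pool.Agent.MP_b5e119_nt.G27.BURJ
import Pool.Agent.MP_b5e119_nt.G27.BUR1J
import Pool.Agent.MP_b5e119_nt.G27.ENEJ
import Pool.Agent.MP_b5e119_nt.G27.MOMJ
import Pool.Agent.MP_b5e119_nt.G27.TAU

/-! Assembly of the form with a lacunary exceptional set. -/

namespace Pool.Agent.G94

open Pool.Agent.G60

theorem tope : TOPE_s :=
  tope_row dyp_row (G27.burj_row cheb_row (G27.momj_row G27.tau_row) (G27.bur1j_row G27.enej_row))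
    (fun i => @strp i) fun i => @odp i

end Pool.Agent.G94
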