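import Pool.Agent.MP_b5e119_nt.G94.Defs

namespace Pool.Agent.G94

open Finset Filter Topology Pool.Agent.G60

theorem odp_row [Sg] (hLIO : LIO_s) (hODD3 : ODD3_s) : ODP_s := by
  intro δ hδ
  obtain ⟨C, hC, h⟩ := hLIO 1
  refine ⟨δ / 4, ⌈Real.exp (2 * C / δ)⌉₊ + 3, by positivity, fun p _ hp e he hc => ?_⟩
  obtain ⟨x, rfl⟩ : ∃ x, p = x + 1 := ⟨p - 1, by omega⟩
  have hx2 : 2 ≤ x := by omega
  have hxR : (2 : ℝ) ≤ x := by exact_mod_cast hx2
  have h1 := h x hx2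
  have h2 := hODD3 (x + 1) e he
  rw [Nat.add_sub_cancel] at h2
  have h3 : (od (x + 1) : ℝ) ≤ |∑ n ∈ Icc 1 x, (lam n : ℝ)| + 2 * cnt (x + 1) e (-Sg.s * e) := by
    exact_mod_cast h2
  have hL : 2 * C / δ ≤ Real.log x := by
    rw [Real.le_log_iff_exp_le (by linarith)]
    refine (Nat.le_ceil _).trans ?_
    exact_mod_cast (by omega : ⌈Real.exp (2 * C / δ)⌉₊ ≤ x)
  have hL0 : 0 < Real.log x := Real.log_pos (by linarith)
  have h5 : C * x / Real.log x ^ 1 ≤ δ / 2 * x := by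
    rw [pow_one, div_le_iff₀ hL0]
    rw [div_le_iff₀ hδ] at hL
    nlinarith
  push_cast at hc ⊢
  nlinarith

end Pool.Agent.G94
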